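import Mathlib
import Pool.Agent.U214.GT.Cnt

/-!
# The number of `t` with prescribed small prime factors, signs and residues, `G(t)` without small
prime factors (after `U214.GT.cntq`)
-/

set_option autoImplicit false

namespace Pool.Agent.U376.GR

open Finset Polynomial Pool.Agent.U214.PT Pool.Agent.U214.GT
open Pool.Agent.W262.RK (PS PP mem_PS dv_prime dv_squarefree dv_pos dv_ne_zero PP_ne_zero)
open Pool.Agent.H474R2.PG (rho)
open Pool.Agent.W372.RK2 (sq_pow_dvd card_W WW)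

/-- **the count** -/
theorem cntG {f G g : ℤ[X]} {d z Me : ℕ} {C1 : ℝ} (hf : Pg f d z) (hF : Pg (f * g) d z)
    (hg : ∀ p : ℕ, p.Prime → z < p → ∀ t : ℤ, (p : ℤ) ∣ g.eval t → (p : ℤ) ∣ G.eval t)
    (hC1 : 0 ≤ C1)
    (hP : ∀ y : ℕ, 3 ≤ y → z < y → ∏ p ∈ PS z y, (1 - (rho (f * g) p : ℝ) / p) ≤
      C1 / (Real.log y) ^ Me) : ∃ (C : ℝ) (K y0 : ℕ), 0 ≤ C ∧ 1 ≤ K ∧
    ∀ X y Y : ℕ, y0 ≤ y → z < y → y ^ K ≤ X → ∀ s ∈ (PP z y).divisors,
      ∀ v ∈ (PP z y).divisors, ∀ u ∈ (PP y Y).divisors, (s * v * u) ^ 8 ≤ X →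
      ∀ (E : Finset ℕ) (θ : ℕ → ℕ), (((Icc 1 X).filter (fun t : ℕ =>
        (∀ p ∈ PS z y, ¬ (p : ℤ) ∣ G.eval (t : ℤ)) ∧ t1 z y (f.eval (t : ℤ)) = s ∧
        t2 z y (f.eval (t : ℤ)) = v ∧ (u : ℤ) ∣ f.eval (t : ℤ) ∧
        ngs (f.eval (t : ℤ)) s = E ∧ ∀ p ∈ s.primeFactors, t % p = θ p)).card : ℝ) ≤
        C * X * (1 / 2) ^ s.primeFactors.card * gh (h0 (f * g)) s *
          ((d : ℝ) ^ v.primeFactors.card * (gh (h0 (f * g)) v / v)) *
          ((d : ℝ) ^ u.primeFactors.card / u) / (Real.log y) ^ Me := by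
  classical
  obtain ⟨C, K, y0, hC, hK, hSV⟩ := svp hF hC1 hP
  refine ⟨C, K, y0, hC, hK, ?_⟩
  intro X y Y hy0 hzy hX s hs v hv u hu hsvu E θ
  have hz : 2 ≤ z := by have := hf.zd; omega
  have hlog : 0 ≤ (Real.log y) ^ Me := pow_nonneg (Real.log_natCast_nonneg y) _
  have hsub : ∀ p : ℕ, p.Prime → z < p → 0 < (p : ℝ) - rho (f * g) p := by
    intro p hp hzp
    have h1 := hF.rho p hp hzp
    have h2 := hF.zd
    have h3 : ((rho (f * g) p : ℕ) : ℝ) < p := by exact_mod_cast (by omega : rho (f * g) p < p)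
    linarith
  have hgh : ∀ n ∈ (PP z y).divisors, 0 ≤ gh (h0 (f * g)) n := by
    intro n hn
    unfold gh h0
    refine prod_nonneg fun p hp => div_nonneg zero_le_one (hsub p ?_ ?_).le
    · exact Nat.prime_of_mem_primeFactors hp
    · exact (dv_prime hn (Nat.prime_of_mem_primeFactors hp) (Nat.dvd_of_mem_primeFactors hp)).1
  have hgs := hgh s hs
  have hgv := hgh v hv
  obtain ⟨T, hT⟩ : ∃ T, T = (Icc 1 X).filter (fun t : ℕ =>
        (∀ p ∈ PS z y, ¬ (p : ℤ) ∣ G.eval (t : ℤ)) ∧ t1 z y (f.eval (t : ℤ)) = s ∧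
        t2 z y (f.eval (t : ℤ)) = v ∧ (u : ℤ) ∣ f.eval (t : ℤ) ∧
        ngs (f.eval (t : ℤ)) s = E ∧ ∀ p ∈ s.primeFactors, t % p = θ p) := ⟨_, rfl⟩
  rw [← hT]
  have hgood : ∀ t ∈ T, Gt f z y s v u (t : ℤ) ∧ ngs (f.eval (t : ℤ)) s = E ∧
      ∀ p ∈ s.primeFactors, t % p = θ p := by
    intro t ht
    rw [hT, mem_filter] at ht
    exact ⟨⟨ht.2.2.1, ht.2.2.2.1, ht.2.2.2.2.1⟩, ht.2.2.2.2.2⟩
  have hrough : ∀ t ∈ T, ∀ p ∈ PS z y, ¬ (p : ℤ) ∣ G.eval (t : ℤ) := by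
    intro t ht
    rw [hT, mem_filter] at ht
    exact ht.2.1
  rcases T.eq_empty_or_nonempty with hTe | ⟨t0, ht0⟩
  · rw [hTe, card_empty, Nat.cast_zero]
    positivity
  obtain ⟨m, hm⟩ : ∃ m, m = s ^ 2 * v ^ 2 * u := ⟨_, rfl⟩
  have hs1 := dv_pos hs
  have hv1 := dv_pos hv
  have hu1 := dv_pos hu
  have hm1 : 1 ≤ m := by rw [hm]; exact Nat.succ_le_of_lt (by positivity)
  have hm4 : m ^ 4 ≤ X := by
    refine le_trans ?_ hsvu
    have h1 : m ≤ (s * v * u) ^ 2 := by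
      rw [hm]
      calc s ^ 2 * v ^ 2 * u ≤ s ^ 2 * v ^ 2 * (u * u) := by
            apply Nat.mul_le_mul_left
            nlinarith
        _ = (s * v * u) ^ 2 := by ring
    calc m ^ 4 ≤ ((s * v * u) ^ 2) ^ 4 := Nat.pow_le_pow_left h1 4
      _ = (s * v * u) ^ 8 := by rw [← pow_mul]
  have hsq := (hgood t0 ht0).1
  obtain ⟨B, hBdef⟩ : ∃ B, B = C * (X / m) * (∏ p ∈ m.primeFactors.filter (fun p => p ∈ PS z y),
        (p : ℝ) / ((p : ℝ) - rho (f * g) p)) / (Real.log y) ^ Me := ⟨_, rfl⟩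
  have hfib : ∀ φ : (s * v * u).primeFactors → ℕ × ℕ,
      ((T.filter (fun t : ℕ => Ph f s v u t = φ)).card : ℝ) ≤ B := by
    intro φ
    rcases (T.filter (fun t : ℕ => Ph f s v u t = φ)).eq_empty_or_nonempty with
      he | ⟨r, hr⟩
    · rw [he, card_empty, Nat.cast_zero, hBdef]
      exact le_trans (Nat.cast_nonneg _) (hSV X y hy0 hzy hX m 0 hm1 hm4)
    · rw [hBdef]
      refine le_trans ?_ (hSV X y hy0 hzy hX m r hm1 hm4)
      rw [Nat.cast_le]
      apply card_le_card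
      intro t ht
      rw [mem_filter] at ht hr
      have gt := (hgood t ht.1).1
      have gr := (hgood r hr.1).1
      have htX : t ∈ Icc 1 X := by
        have := ht.1
        rw [hT] at this
        exact (mem_filter.1 this).1
      rw [mem_filter]
      refine ⟨htX, ?_, ?_⟩
      · have h1 := Ph_congr hf hzy hs hv hu gt gr (ht.2.trans hr.2.symm)
        rw [← hm] at h1
        exact ((Nat.modEq_iff_dvd.2 h1)).symm
      · intro p hpP hpm hpf
        have hp := (mem_PS.1 hpP).2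
        have hpf : (p : ℤ) ∣ f.eval (t : ℤ) := by
          rw [eval_mul] at hpf
          rcases (Nat.prime_iff_prime_int.1 hp).dvd_or_dvd hpf with h | h
          · exact h
          · exact absurd (hg p hp (mem_PS.1 hpP).1.1 t h) (hrough t ht.1 p hpP)
        apply hpm
        rw [hm]
        by_cases h2 : (p : ℤ) ^ 2 ∣ f.eval (t : ℤ)
        · have h3 : p ∣ v := by
            rw [← gt.hv]
            exact (dvd_t2 hp).2 ⟨hpP, h2⟩
          exact ((h3.pow two_ne_zero).mul_left _).mul_right _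
        · have h3 : p ∣ s := by
            rw [← gt.hs]
            exact (dvd_t1 hp).2 ⟨hpP, hpf, h2⟩
          exact ((h3.pow two_ne_zero).mul_right _).mul_right _
  have hB0 : 0 ≤ B := by
    rw [hBdef]
    exact le_trans (Nat.cast_nonneg _) (hSV X y hy0 hzy hX m 0 hm1 hm4)
  have hcard : (T.card : ℝ) ≤
      ((Fintype.piFinset (fun p : (s * v * u).primeFactors => Wq f s E θ p.1)).card : ℝ) * B := by
    rw [card_eq_sum_card_fiberwise (f := fun t : ℕ => Ph f s v u t)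
      (t := Fintype.piFinset (fun p : (s * v * u).primeFactors => Wq f s E θ p.1))
      (fun t ht => Ph_memq hs hv hu (hgood t ht).1 (hgood t ht).2.1 (hgood t ht).2.2)]
    rw [Nat.cast_sum]
    refine (sum_le_sum fun φ _ => hfib φ).trans ?_
    rw [sum_const, nsmul_eq_mul]
  refine hcard.trans ((mul_le_mul_of_nonneg_right (card_Phq hz hsq hs hv hu E θ) hB0).trans ?_)
  have hmp : ∏ p ∈ m.primeFactors.filter (fun p => p ∈ PS z y),
      (p : ℝ) / ((p : ℝ) - rho (f * g) p) =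
      (∏ p ∈ s.primeFactors, (p : ℝ) / ((p : ℝ) - rho (f * g) p)) *
        ∏ p ∈ v.primeFactors, (p : ℝ) / ((p : ℝ) - rho (f * g) p) := by
    rw [hm, mod_primes hs hv hu, hsq.cop.primeFactors_mul,
      prod_union hsq.cop.disjoint_primeFactors]
  have hu' : ∏ p ∈ u.primeFactors, (rho f p : ℝ) ≤ (d : ℝ) ^ u.primeFactors.card := by
    rw [← prod_const]
    refine prod_le_prod (fun p _ => Nat.cast_nonneg _) fun p hp => ?_
    have h1 := dv_prime hu (Nat.prime_of_mem_primeFactors hp) (Nat.dvd_of_mem_primeFactors hp)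
    exact_mod_cast hf.rho p (Nat.prime_of_mem_primeFactors hp) (by omega)
  have hv' : ∏ p ∈ v.primeFactors, (rho f p : ℝ) ≤ (d : ℝ) ^ v.primeFactors.card := by
    rw [← prod_const]
    refine prod_le_prod (fun p _ => Nat.cast_nonneg _) fun p hp => ?_
    have h1 := dv_prime hv (Nat.prime_of_mem_primeFactors hp) (Nat.dvd_of_mem_primeFactors hp)
    exact_mod_cast hf.rho p (Nat.prime_of_mem_primeFactors hp) (by omega)
  have es : (∏ p ∈ s.primeFactors, ((1 / 2) * (p : ℝ))) *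
      (∏ p ∈ s.primeFactors, (p : ℝ) / ((p : ℝ) - rho (f * g) p)) =
      (1 / 2) ^ s.primeFactors.card * (s : ℝ) ^ 2 * gh (h0 (f * g)) s := by
    rw [cast_pf hs, ← prod_pow]
    unfold gh h0
    rw [← prod_const, ← prod_mul_distrib, ← prod_mul_distrib, ← prod_mul_distrib]
    refine prod_congr rfl fun p hp => ?_
    ring
  have ev : (∏ p ∈ v.primeFactors, (p : ℝ) / ((p : ℝ) - rho (f * g) p)) = (v : ℝ) * gh (h0 (f * g)) v := by
    rw [cast_pf hv]
    unfold gh h0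
    rw [← prod_mul_distrib]
    refine prod_congr rfl fun p hp => ?_
    ring
  have hs0 : (s : ℝ) ≠ 0 := by positivity
  have hv0 : (v : ℝ) ≠ 0 := by positivity
  have hu0 : (u : ℝ) ≠ 0 := by positivity
  have hmc : (m : ℝ) = (s : ℝ) ^ 2 * (v : ℝ) ^ 2 * u := by
    rw [hm]
    push_cast
    ring
  rw [hBdef, hmp, hmc]
  obtain ⟨a, ha⟩ : ∃ a, a = ∏ p ∈ s.primeFactors, ((1 / 2) * (p : ℝ)) := ⟨_, rfl⟩
  obtain ⟨a', ha'⟩ : ∃ a', a' = ∏ p ∈ s.primeFactors, (p : ℝ) / ((p : ℝ) - rho (f * g) p) := ⟨_, rfl⟩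
  obtain ⟨b, hb⟩ : ∃ b, b = ∏ p ∈ v.primeFactors, (rho f p : ℝ) := ⟨_, rfl⟩
  obtain ⟨b', hb'⟩ : ∃ b', b' = ∏ p ∈ v.primeFactors, (p : ℝ) / ((p : ℝ) - rho (f * g) p) := ⟨_, rfl⟩
  have hb0 : 0 ≤ b := by rw [hb]; exact prod_nonneg fun p _ => Nat.cast_nonneg _
  rw [← ha, ← ha'] at es
  rw [← hb'] at ev
  rw [← hb] at hv'
  rw [← ha, ← hb, ← ha', ← hb']
  calc a * b * (∏ p ∈ u.primeFactors, (rho f p : ℝ)) *
        (C * (X / ((s : ℝ) ^ 2 * (v : ℝ) ^ 2 * u)) * (a' * b') / (Real.log y) ^ Me)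
      = C * X * ((a * a') * (b * b')) * (∏ p ∈ u.primeFactors, (rho f p : ℝ)) /
          ((s : ℝ) ^ 2 * (v : ℝ) ^ 2 * u) / (Real.log y) ^ Me := by ring
    _ = C * X * (1 / 2) ^ s.primeFactors.card * gh (h0 (f * g)) s * (b * (gh (h0 (f * g)) v / v)) *
          ((∏ p ∈ u.primeFactors, (rho f p : ℝ)) / u) / (Real.log y) ^ Me := by
        rw [es, ev]
        field_simp
    _ ≤ _ := by
        apply div_le_div_of_nonneg_right _ hlog
        refine mul_le_mul (mul_le_mul_of_nonneg_left (mul_le_mul_of_nonneg_right hv' ?_)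
          (by positivity)) (div_le_div_of_nonneg_right hu' (Nat.cast_nonneg u)) ?_ ?_
        · exact div_nonneg hgv (Nat.cast_nonneg _)
        · exact div_nonneg (prod_nonneg fun p _ => Nat.cast_nonneg _) (Nat.cast_nonneg _)
        · exact mul_nonneg (by positivity) (mul_nonneg (by positivity)
            (div_nonneg hgv (Nat.cast_nonneg _)))

end Pool.Agent.U376.GR
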