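import Mathlib
import Pool.Agent.U214.GT.Asm

/-!
# The factors of a polynomial which divide another one
-/

set_option autoImplicit false

namespace Pool.Agent.U376.GR

open Finset Polynomial UniqueFactorizationMonoid Pool.Agent.U214.PT Pool.Agent.U214.GT

/-- `f` over `ℚ` -/
noncomputable def q (f : ℤ[X]) : ℚ[X] := f.map (Int.castRingHom ℚ)

open Classical in
/-- the number of the irreducible factors of `f` over `ℚ` which do not divide `G` -/
noncomputable def nG (G f : ℤ[X]) : ℕ :=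
  ((normalizedFactors (q f)).filter (fun P => ¬ P ∣ q G)).card

lemma q_inj {f g : ℤ[X]} (h : q f = q g) : f = g :=
  map_injective _ Int.cast_injective h

lemma q_mul (f g : ℤ[X]) : q (f * g) = q f * q g := Polynomial.map_mul _

lemma q_pow (f : ℤ[X]) (n : ℕ) : q (f ^ n) = q f ^ n := Polynomial.map_pow _ _

lemma q_C (n : ℤ) : q (C n) = C (n : ℚ) := by
  unfold q
  rw [Polynomial.map_C]
  rfl

lemma unit_C {n : ℤ} (hn : n ≠ 0) : IsUnit (C (n : ℚ)) :=
  isUnit_C.2 (isUnit_iff_ne_zero.2 (by exact_mod_cast hn))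

/-- divisibility over `ℚ` gives divisibility modulo large primes -/
lemma dvd_large {F H : ℤ[X]} (h : q F ∣ q H) : ∃ z0 : ℕ, ∀ p : ℕ, p.Prime → z0 < p → ∀ t : ℤ,
    (p : ℤ) ∣ F.eval t → (p : ℤ) ∣ H.eval t := by
  obtain ⟨w, hw⟩ := h
  obtain ⟨n, w0, hn, hw0⟩ := clear w
  have e : C n * H = F * w0 := by
    apply q_inj
    rw [q_mul, q_mul, q_C, hw]
    show _ = q F * (w0.map (Int.castRingHom ℚ))
    rw [hw0]
    ring
  refine ⟨n.natAbs, fun p hp hz t ht => ?_⟩
  have h1 := congrArg (eval t) e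
  rw [eval_mul, eval_mul, eval_C] at h1
  have h2 : (p : ℤ) ∣ n * H.eval t := by
    rw [h1]
    exact ht.mul_right _
  rcases (Nat.prime_iff_prime_int.1 hp).dvd_or_dvd h2 with h3 | h3
  · have := Nat.le_of_dvd (Int.natAbs_pos.2 hn) (Int.natCast_dvd.1 h3)
    omega
  · exact h3

/-- coprimality over `ℚ` gives coprimality modulo large primes -/
lemma cop_large {F H : ℤ[X]} (h : IsCoprime (q F) (q H)) : ∃ z0 : ℕ, ∀ p : ℕ, p.Prime → z0 < p →
    ∀ t : ℤ, (p : ℤ) ∣ F.eval t → ¬ (p : ℤ) ∣ H.eval t := by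
  obtain ⟨u, v, huv⟩ := h
  obtain ⟨m, u0, hm, hu0⟩ := clear u
  obtain ⟨n, v0, hn, hv0⟩ := clear v
  have e : C n * u0 * F + C m * v0 * H = C (m * n) := by
    apply q_inj
    have h1 : q (C n * u0 * F + C m * v0 * H) = q (C n * u0 * F) + q (C m * v0 * H) :=
      Polynomial.map_add _
    rw [h1, q_mul, q_mul, q_mul, q_mul, q_C, q_C, q_C]
    have h2 : q u0 = C (m : ℚ) * u := hu0
    have h3 : q v0 = C (n : ℚ) * v := hv0
    rw [h2, h3]
    push_cast
    rw [C_mul]
    linear_combination (C (m : ℚ) * C (n : ℚ)) * huv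
  refine ⟨(m * n).natAbs, fun p hp hz t h1 h2 => ?_⟩
  have h3 := congrArg (eval t) e
  simp only [eval_add, eval_mul, eval_C] at h3
  have h4 : (p : ℤ) ∣ m * n := by
    rw [← h3]
    exact dvd_add (h1.mul_left _) (h2.mul_left _)
  have := Nat.le_of_dvd (Int.natAbs_pos.2 (mul_ne_zero hm hn)) (Int.natCast_dvd.1 h4)
  omega

lemma ne_of_sep {f : ℤ[X]} (hs : Sep f) : f ≠ 0 := by
  rintro rfl
  obtain ⟨N, hN, A, B, h⟩ := hs
  rw [derivative_zero, mul_zero, mul_zero, add_zero] at h
  exact hN (C_eq_zero.1 h.symm)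

/-- the factor of `f` which is coprime to `G` -/
theorem split {f G : ℤ[X]} (hs : Sep f) (hG : G ≠ 0) : ∃ b : ℤ[X], Sep b ∧ nf b = nG G f ∧
    IsCoprime (q b) (q G) ∧ ∃ z0 : ℕ, ∀ p : ℕ, p.Prime → z0 < p → ∀ t : ℤ,
      ((p : ℤ) ∣ f.eval t ∧ ¬ (p : ℤ) ∣ G.eval t) ↔ (p : ℤ) ∣ b.eval t := by
  classical
  have hf0 := ne_of_sep hs
  have hq0 : q f ≠ 0 := map_ne hf0
  have hsq : Squarefree (q f) := sqf_of_sep hs
  obtain ⟨P, hP⟩ : ∃ P, P = normalizedFactors (q f) := ⟨_, rfl⟩
  obtain ⟨P1, hP1⟩ : ∃ P1, P1 = P.filter (fun r => r ∣ q G) := ⟨_, rfl⟩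
  obtain ⟨P2, hP2⟩ : ∃ P2, P2 = P.filter (fun r => ¬ r ∣ q G) := ⟨_, rfl⟩
  have hadd : P1 + P2 = P := by rw [hP1, hP2]; exact Multiset.filter_add_not _ _
  have hirr : ∀ r ∈ P, Irreducible r := fun r hr => by
    rw [hP] at hr
    exact irreducible_of_normalized_factor r hr
  have hass : Associated (P1.prod * P2.prod) (q f) := by
    rw [← Multiset.prod_add, hadd, hP]
    exact prod_normalizedFactors hq0
  obtain ⟨n1, a, hn1, ha⟩ := clear P1.prod
  obtain ⟨n2, b, hn2, hb⟩ := clear P2.prod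
  have ha' : q a = C (n1 : ℚ) * P1.prod := ha
  have hb' : q b = C (n2 : ℚ) * P2.prod := hb
  have hbf : q b ∣ q f := by
    rw [hb']
    exact ((unit_C hn2).mul_left_dvd).2 ((Dvd.intro_left _ rfl).trans hass.dvd)
  have hsb : Sep b := sep_of_sqf (hsq.squarefree_of_dvd hbf)
  have hb0 : q b ≠ 0 := map_ne (ne_of_sep hsb)
  have hcop : IsCoprime (q b) (q G) := by
    rw [hb']
    refine (isCoprime_mul_unit_left_left (unit_C hn2) _ _).2 ?_
    refine Multiset.prod_induction (fun x => IsCoprime x (q G)) P2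
      (fun x y hx hy => hx.mul_left hy) isCoprime_one_left fun r hr => ?_
    rw [hP2, Multiset.mem_filter] at hr
    exact ((hirr r hr.1).coprime_iff_not_dvd).2 hr.2
  refine ⟨b, hsb, ?_, hcop, ?_⟩
  · have h1 : Associated P2.prod (normalizedFactors (q b)).prod := by
      refine Associated.trans ?_ (prod_normalizedFactors hb0).symm
      rw [hb']
      exact (associated_unit_mul_left _ _ (unit_C hn2)).symm
    have h2 := factors_unique (f := P2) (g := normalizedFactors (q b))
      (fun x hx => by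
        rw [hP2, Multiset.mem_filter] at hx
        exact hirr x hx.1)
      (fun x hx => irreducible_of_normalized_factor x hx) h1
    have h3 := Multiset.card_eq_card_of_rel h2
    unfold nf nG
    rw [← hP, ← hP2, h3]
    rfl
  · have hab1 : q f ∣ q (a * b) := by
      rw [q_mul, ha', hb', show C (n1 : ℚ) * P1.prod * (C (n2 : ℚ) * P2.prod) =
        (C (n1 : ℚ) * C (n2 : ℚ)) * (P1.prod * P2.prod) by ring]
      exact (hass.symm.dvd).mul_left _
    have hab2 : q (a * b) ∣ q f := by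
      rw [q_mul, ha', hb', show C (n1 : ℚ) * P1.prod * (C (n2 : ℚ) * P2.prod) =
        (C (n1 : ℚ) * C (n2 : ℚ)) * (P1.prod * P2.prod) by ring]
      exact (((unit_C hn1).mul (unit_C hn2)).mul_left_dvd).2 hass.dvd
    have haG : q a ∣ q (G ^ P1.card) := by
      rw [ha', q_pow]
      refine ((unit_C hn1).mul_left_dvd).2 ?_
      have h1 := Multiset.prod_dvd_prod_of_dvd (S := P1) (fun x => x) (fun _ => q G)
        (fun r hr => by
          rw [hP1, Multiset.mem_filter] at hr
          exact hr.2)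
      simpa using h1
    obtain ⟨z1, h1⟩ := dvd_large hab1
    obtain ⟨z2, h2⟩ := dvd_large hab2
    obtain ⟨z3, h3⟩ := dvd_large haG
    obtain ⟨z4, h4⟩ := cop_large hcop
    refine ⟨z1 + z2 + z3 + z4, fun p hp hz t => ?_⟩
    have hpi : Prime (p : ℤ) := Nat.prime_iff_prime_int.1 hp
    constructor
    · rintro ⟨h5, h6⟩
      have h7 := h1 p hp (by omega) t h5
      rw [eval_mul] at h7
      rcases hpi.dvd_or_dvd h7 with h8 | h8
      · have h9 := h3 p hp (by omega) t h8
        rw [eval_pow] at h9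
        exact absurd (hpi.dvd_of_dvd_pow h9) h6
      · exact h8
    · intro h5
      refine ⟨h2 p hp (by omega) t ?_, h4 p hp (by omega) t h5⟩
      rw [eval_mul]
      exact h5.mul_left _

lemma nG_mul {G f h : ℤ[X]} (hf : f ≠ 0) (hh : h ≠ 0) : nG G (f * h) = nG G f + nG G h := by
  classical
  unfold nG
  rw [q_mul, normalizedFactors_mul (show q f ≠ 0 from map_ne hf) (show q h ≠ 0 from map_ne hh),
    Multiset.filter_add, Multiset.card_add]

lemma nG_le (G f : ℤ[X]) : nG G f ≤ nf f := by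
  classical
  unfold nG nf
  exact Multiset.card_le_card (Multiset.filter_le _ _)

lemma nf_deg {f : ℤ[X]} (h : 0 < nf f) : 0 < f.natDegree := by
  by_contra hcon
  obtain ⟨c, rfl⟩ := natDegree_eq_zero.1 (Nat.eq_zero_of_not_pos hcon)
  by_cases hc : c = 0
  · subst hc
    unfold nf at h
    simp at h
  · rw [nf_const hc] at h
    exact absurd h (lt_irrefl 0)

/-- the two ways to count the factors of the least common multiple -/
lemma nf_add_nG {f G : ℤ[X]} (hf : Sep f) (hG : Sep G) : nf f + nG f G = nf G + nG G f := by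
  classical
  obtain ⟨P, hP⟩ : ∃ P, P = normalizedFactors (q f) := ⟨_, rfl⟩
  obtain ⟨R, hR⟩ : ∃ R, R = normalizedFactors (q G) := ⟨_, rfl⟩
  have hf0 : q f ≠ 0 := map_ne (ne_of_sep hf)
  have hG0 : q G ≠ 0 := map_ne (ne_of_sep hG)
  have hPn : P.Nodup := by
    rw [hP]
    exact (squarefree_iff_nodup_normalizedFactors hf0).1 (sqf_of_sep hf)
  have hRn : R.Nodup := by
    rw [hR]
    exact (squarefree_iff_nodup_normalizedFactors hG0).1 (sqf_of_sep hG)
  have key : ∀ {g h : ℚ[X]}, g ≠ 0 → h ≠ 0 → ∀ r ∈ normalizedFactors g,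
      (r ∣ h ↔ r ∈ normalizedFactors h) := by
    intro g h hg hh r hr
    have h1 := (mem_normalizedFactors_iff' hg).1 hr
    rw [mem_normalizedFactors_iff' hh]
    exact ⟨fun h2 => ⟨h1.1, h1.2.1, h2⟩, fun h2 => h2.2.2⟩
  have e1 : nf f = P.toFinset.card := by
    rw [Multiset.toFinset_card_of_nodup hPn, hP]
    rfl
  have e2 : nf G = R.toFinset.card := by
    rw [Multiset.toFinset_card_of_nodup hRn, hR]
    rfl
  have e3 : nG f G = (R.toFinset \ P.toFinset).card := by
    have h1 : R.toFinset \ P.toFinset = (R.filter (fun r => ¬ r ∣ q f)).toFinset := by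
      ext r
      rw [mem_sdiff, Multiset.mem_toFinset, Multiset.mem_toFinset, Multiset.mem_toFinset,
        Multiset.mem_filter]
      refine and_congr_right fun hr => not_congr ?_
      rw [hR] at hr
      rw [hP]
      exact (key hG0 hf0 r hr).symm
    rw [h1, Multiset.toFinset_card_of_nodup (hRn.filter _), hR]
    rfl
  have e4 : nG G f = (P.toFinset \ R.toFinset).card := by
    have h1 : P.toFinset \ R.toFinset = (P.filter (fun r => ¬ r ∣ q G)).toFinset := by
      ext r
      rw [mem_sdiff, Multiset.mem_toFinset, Multiset.mem_toFinset, Multiset.mem_toFinset,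
        Multiset.mem_filter]
      refine and_congr_right fun hr => not_congr ?_
      rw [hP] at hr
      rw [hR]
      exact (key hf0 hG0 r hr).symm
    rw [h1, Multiset.toFinset_card_of_nodup (hPn.filter _), hP]
    rfl
  rw [e1, e2, e3, e4]
  have h1 := card_sdiff_add_card R.toFinset P.toFinset
  have h2 := card_sdiff_add_card P.toFinset R.toFinset
  rw [union_comm] at h2
  omega

/-- the least common multiple of `f` and `G` is `f * g` -/
theorem cof {f G : ℤ[X]} (hf : Sep f) (hG : Sep G) : ∃ g : ℤ[X], Sep (f * g) ∧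
    nf (f * g) = nf G + nG G f ∧ ∃ z0 : ℕ, ∀ p : ℕ, p.Prime → z0 < p → ∀ t : ℤ,
      (p : ℤ) ∣ g.eval t → (p : ℤ) ∣ G.eval t := by
  obtain ⟨g, hsg, hn, hcop, z0, hz0⟩ := split hG (ne_of_sep hf)
  refine ⟨g, ?_, ?_, z0, fun p hp hz t ht => ((hz0 p hp hz t).2 ht).1⟩
  · apply sep_of_sqf
    have h1 : Squarefree (q f * q g) := by
      rw [squarefree_mul_iff]
      exact ⟨hcop.symm.isRelPrime, sqf_of_sep hf, sqf_of_sep hsg⟩
    have h2 : q (f * g) = q f * q g := q_mul f g
    rw [← h2] at h1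
    exact h1
  · rw [nf_mul (ne_of_sep hf) (ne_of_sep hsg), hn, nf_add_nG hf hG]

end Pool.Agent.U376.GR
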