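import Mathlib
import Pool.Agent.U214.GT.Main
import Pool.Agent.U376.GR.Split
import Pool.Agent.U376.GR.Cnt

/-!
# The local data at the parameters `t` for which `G(t)` has no small prime factor
-/

set_option autoImplicit false

namespace Pool.Agent.U376.GR

open Finset Polynomial Pool.Agent.W262.RK Pool.Agent.U214.PT Pool.Agent.U214.GT
open Pool.Agent.W307.RT (S1 S2 Gd)
open Pool.Agent.H474R2.PG (rho)

/-- the factors which have irreducible factors not dividing `G` -/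
abbrev JP (A B D G : ℤ[X]) : Type := {j : Fin 4 // 0 < nG G (fj A B D j)}

/-- the values -/
noncomputable def vP (A B D G : ℤ[X]) (t : ℕ) (j : JP A B D G) : ℤ := (fj A B D j.1).eval (t : ℤ)

/-- the constants at a residue -/
noncomputable def kP (A B D G : ℤ[X]) (j : JP A B D G) (θ : ℕ) (k : Fin 3) : ℤ :=
  (KK A B D j.1 k).eval (θ : ℤ)

/-- the roots which are not roots of `G` -/
noncomputable def ZP (A B D G : ℤ[X]) (j : JP A B D G) (p : ℕ) : Finset ℕ :=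
  (range p).filter (fun a : ℕ => (p : ℤ) ∣ (fj A B D j.1).eval (a : ℤ) ∧
    ¬ (p : ℤ) ∣ G.eval (a : ℤ))

/-- the classes -/
def cP (A B D G : ℤ[X]) : JP A B D G → Fin 4 := Subtype.val

/-- no further roots -/
def Em (A B D G : ℤ[X]) (z : ℕ) : Prop :=
  ∀ j, nG G (fj A B D j) = 0 → ∀ p : ℕ, p.Prime → z < p → ∀ t : ℤ,
    (p : ℤ) ∣ (fj A B D j).eval t → (p : ℤ) ∣ G.eval t

variable {A B D G : ℤ[X]} {d z : ℕ}

lemma prod_sub {M : Type} [CommMonoid M] (P : Fin 4 → Prop) [DecidablePred P] (f : Fin 4 → M)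
    (h : ∀ j, ¬ P j → f j = 1) : ∏ j : {j // P j}, f j.1 = ∏ j, f j := by
  rw [← Finset.prod_subtype (univ.filter P) (by simp) f]
  apply prod_filter_of_ne
  intro j _ hj
  by_contra hcon
  exact hj (h j hcon)

lemma prod_JJ_JP {M : Type} [CommMonoid M] (f : Fin 4 → M)
    (h : ∀ j, nG G (fj A B D j) = 0 → f j = 1) :
    ∏ j : JJ A B D, f j.1 = ∏ j : JP A B D G, f j.1 := by
  rw [prod_sub (fun j => 0 < (fj A B D j).natDegree) f, prod_sub (fun j => 0 < nG G (fj A B D j)) f]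
  · exact fun j hj => h j (Nat.eq_zero_of_not_pos hj)
  · intro j hj
    apply h
    by_contra hcon
    exact hj (nf_deg (lt_of_lt_of_le (Nat.pos_of_ne_zero hcon) (nG_le _ _)))

/-- the rough parameters -/
def Ro (G : ℤ[X]) (z y t : ℕ) : Prop := ∀ p ∈ PS z y, ¬ (p : ℤ) ∣ G.eval (t : ℤ)

lemma S1_one (hE : Em A B D G z) {y t : ℕ} (hR : Ro G z y t) (j : Fin 4)
    (hj : nG G (fj A B D j) = 0) :
    ∏ p ∈ (PS z y).filter (fun p : ℕ => (p : ℤ) ∣ (fj A B D j).eval (t : ℤ) ∧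
      ¬ (p : ℤ) ^ 2 ∣ (fj A B D j).eval (t : ℤ)), p = 1 := by
  rw [filter_false_of_mem, prod_empty]
  rintro p hp ⟨h1, -⟩
  exact hR p hp (hE j hj p (mem_PS.1 hp).2 (mem_PS.1 hp).1.1 _ h1)

lemma S2_one (hE : Em A B D G z) {y t : ℕ} (hR : Ro G z y t) (j : Fin 4)
    (hj : nG G (fj A B D j) = 0) :
    ∏ p ∈ (PS z y).filter (fun p : ℕ => (p : ℤ) ^ 2 ∣ (fj A B D j).eval (t : ℤ)), p = 1 := by
  rw [filter_false_of_mem, prod_empty]
  intro p hp h1
  exact hR p hp (hE j hj p (mem_PS.1 hp).2 (mem_PS.1 hp).1.1 _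
    ((dvd_pow_self (p : ℤ) two_ne_zero).trans h1))

lemma prod_S1P (hf : Pg (ft A B D) d z) (hE : Em A B D G z) {y t : ℕ} (hR : Ro G z y t)
    (h0 : (ft A B D).eval (t : ℤ) ≠ 0) :
    ∏ j, S1 z y (vP A B D G t) j = t1 z y ((ft A B D).eval (t : ℤ)) := by
  rw [← prod_S1 hf h0]
  exact (prod_JJ_JP (G := G) (fun j => ∏ p ∈ (PS z y).filter (fun p : ℕ =>
    (p : ℤ) ∣ (fj A B D j).eval (t : ℤ) ∧ ¬ (p : ℤ) ^ 2 ∣ (fj A B D j).eval (t : ℤ)), p)
    (fun j hj => S1_one hE hR j hj)).symm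

lemma prod_S2P (hf : Pg (ft A B D) d z) (hE : Em A B D G z) {y t : ℕ} (hR : Ro G z y t)
    (h0 : (ft A B D).eval (t : ℤ) ≠ 0) :
    ∏ j, S2 z y (vP A B D G t) j = t2 z y ((ft A B D).eval (t : ℤ)) := by
  rw [← prod_S2 hf h0]
  exact (prod_JJ_JP (G := G) (fun j => ∏ p ∈ (PS z y).filter (fun p : ℕ =>
    (p : ℤ) ^ 2 ∣ (fj A B D j).eval (t : ℤ)), p) (fun j hj => S2_one hE hR j hj)).symm

lemma gdP (hf : Pg (ft A B D) d z) {t : ℕ} (h0 : (ft A B D).eval (t : ℤ) ≠ 0) :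
    Gd z (vP A B D G t) := by
  refine ⟨fun j => fj_ne h0 j.1, fun p hp hz j l hjl ⟨h1, h2⟩ => ?_⟩
  have h3 : j.1 ≠ l.1 := fun h => hjl (Subtype.ext h)
  refine q_nd hf hp hz j.1 h1 ?_
  obtain ⟨q, hq⟩ := fj_cop (A := A) (B := B) (D := D) h3
  rw [hq, eval_mul]
  exact h2.mul_right _

/-- the local counts agree -/
lemma NL_P (hf : Pg (ft A B D) d z) (hE : Em A B D G z) {y t : ℕ} (hR : Ro G z y t)
    (h0 : (ft A B D).eval (t : ℤ) ≠ 0) :
    NL (∏ j, S1 z y (vl A B D t) j)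
      (LLc (cJ A B D) (kJ A B D) (S1 z y (vl A B D t)) (ct A B D t)) =
    NL (∏ j, S1 z y (vP A B D G t) j)
      (LLc (cP A B D G) (kP A B D G) (S1 z y (vP A B D G t)) (ct A B D t)) := by
  rw [prod_S1 hf h0, prod_S1P hf hE hR h0]
  apply Pool.Agent.W125.RK2.NL_congr
  intro p hp
  have hpp := Nat.prime_of_mem_primeFactors hp
  funext v w h g
  apply propext
  unfold LLc
  constructor
  · intro H j hj
    have hdeg : 0 < (fj A B D j.1).natDegree := nf_deg (lt_of_lt_of_le j.2 (nG_le _ _))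
    exact H ⟨j.1, hdeg⟩ hj
  · intro H j hj
    have h1 : 0 < nG G (fj A B D j.1) := by
      by_contra hcon
      have h2 := S1_one (y := y) (t := t) hE hR j.1 (Nat.eq_zero_of_not_pos hcon)
      have h3 : p ∣ ∏ p ∈ (PS z y).filter (fun p : ℕ => (p : ℤ) ∣ (fj A B D j.1).eval (t : ℤ) ∧
        ¬ (p : ℤ) ^ 2 ∣ (fj A B D j.1).eval (t : ℤ)), p := hj
      rw [h2] at h3
      exact hpp.one_lt.ne' (Nat.dvd_one.1 h3)
    exact H ⟨j.1, h1⟩ hj

lemma ZP_card (hf : Pg (ft A B D) d z) {p : ℕ} (hp : p.Prime) (hz : z < p) (j : JP A B D G) :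
    (ZP A B D G j p).card ≤ d := by
  refine le_trans ?_ (hf.rho p hp hz)
  unfold ZP rho
  apply card_le_card
  intro a ha
  rw [mem_filter] at ha ⊢
  refine ⟨ha.1, ?_⟩
  rw [ft_eval A B D j.1]
  exact ha.2.1.mul_right _

lemma kP_nd (hf : Pg (ft A B D) d z) {p : ℕ} (hp : p.Prime) (hz : z < p) (j : JP A B D G)
    {θ : ℕ} (hθ : θ ∈ ZP A B D G j p) (i : Fin 3) : ¬ (p : ℤ) ∣ kP A B D G j θ i := by
  unfold ZP at hθ
  rw [mem_filter] at hθ
  exact K_nd hf hp hz j.1 hθ.2.1 i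

/-- a sum over the indices -/
lemma sum_JP (M : Fin 4 → ℝ) (h : ∀ j, nG G (fj A B D j) = 0 → M j = 0) (c : Fin 4) :
    ∑ j ∈ univ.filter (fun j : JP A B D G => cP A B D G j = c), M j.1 = M c := by
  classical
  by_cases hc : 0 < nG G (fj A B D c)
  · have : univ.filter (fun j : JP A B D G => cP A B D G j = c) = {⟨c, hc⟩} := by
      ext j
      rw [mem_filter, mem_singleton]
      constructor
      · rintro ⟨-, hj⟩
        exact Subtype.ext hj
      · rintro rfl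
        exact ⟨mem_univ _, rfl⟩
    rw [this, sum_singleton]
  · have : univ.filter (fun j : JP A B D G => cP A B D G j = c) = ∅ := by
      rw [filter_eq_empty_iff]
      intro j _ hj
      apply hc
      rw [← hj]
      exact j.2
    rw [this, sum_empty, h c (Nat.eq_zero_of_not_pos hc)]

lemma nG_ft (h0 : ft A B D ≠ 0) : nG G (ft A B D) = ∑ j : JP A B D G, nG G (fj A B D j.1) := by
  classical
  have h1 : ∑ j : JP A B D G, nG G (fj A B D j.1) = ∑ j : Fin 4, nG G (fj A B D j) := by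
    rw [← Finset.sum_subtype (univ.filter (fun j => 0 < nG G (fj A B D j))) (by simp)
      (fun j => nG G (fj A B D j))]
    apply sum_filter_of_ne
    intro j _ hj
    exact Nat.pos_of_ne_zero hj
  rw [h1, Fin.sum_univ_four, fj0, fj1, fj2, fj3]
  unfold ft at h0 ⊢
  have h2 := right_ne_zero_of_mul h0
  have h3 := left_ne_zero_of_mul h0
  have h4 := right_ne_zero_of_mul h3
  have h5 := left_ne_zero_of_mul h3
  rw [nG_mul h3 h2, nG_mul h5 h4, nG_mul (left_ne_zero_of_mul h5) (right_ne_zero_of_mul h5)]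

end Pool.Agent.U376.GR
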