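import Mathlib
import Pool.Agent.U376.GR.Loc

/-!
# The summation over the parameters `t` for which `G(t)` has no small prime factor
-/

set_option autoImplicit false

namespace Pool.Agent.U376.GR

open Finset Polynomial Pool.Agent.W262.RK Pool.Agent.U214.PT Pool.Agent.U214.RM
  Pool.Agent.U214.GT
open Pool.Agent.W307.RT (S1 S2 Gd)
open Pool.Agent.W591.RK2 (mem_Tup')
open Pool.Agent.H474R2.PG (rho)

variable {A B D G g : ℤ[X]} {d z : ℕ}

/-- the weights -/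
structure WtP (A B D G g : ℤ[X]) (d z1 : ℕ) (C0 : ℝ) : Prop where
  pg : Pg (ft A B D) d z1
  pF : Pg (ft A B D * g) d z1
  gG : ∀ p : ℕ, p.Prime → z1 < p → ∀ t : ℤ, (p : ℤ) ∣ g.eval t → (p : ℤ) ∣ G.eval t
  em : Em A B D G z1
  d1 : 1 ≤ d
  w1 : Wt (h0 (ft A B D * g)) (2 * d) C0 1 z1
  wj : ∀ j : JP A B D G,
    Wt (hZ (ZP A B D G) (h0 (ft A B D * g)) j) (2 * d) C0 (nG G (fj A B D j.1)) z1
  sv : ∀ z, z1 ≤ z → ∃ C1 : ℝ, 0 ≤ C1 ∧ ∀ y : ℕ, 3 ≤ y → z < y →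
      ∏ p ∈ PS z y, (1 - (rho (ft A B D * g) p : ℝ) / p) ≤
        C1 / (Real.log y) ^ (nf (ft A B D * g))

/-- the exponents -/
structure ExG (A B G : ℤ[X]) (r : ℕ) (e : ℝ) : Prop where
  nn : 0 ≤ e
  h0 : ((2 : ℝ) ^ r - 1) * (nG G A - ((nG G B : ℝ) + nG G (A - B)) / 2 ^ r) ≤ e
  h1 : ((2 : ℝ) ^ r - 1) * (nG G B - ((nG G A : ℝ) + nG G (A - B)) / 2 ^ r) ≤ e
  h2 : ((2 : ℝ) ^ r - 1) * (nG G (A - B) - ((nG G A : ℝ) + nG G B) / 2 ^ r) ≤ e

/-- the sum with the weights -/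
theorem ma_P {r : ℕ} {e : ℝ} {z1 : ℕ} {C0 : ℝ} (hW : WtP A B D G g d z1 C0)
    (hE : ExG A B G r e) (hn : ft A B D ≠ 0) :
    ∃ z0 : ℕ, ∀ z, z0 ≤ z → z1 ≤ z → ∃ C : ℝ, ∀ y, z < y →
      ∑ s ∈ Tup (JP A B D G) z y, NBS r (cP A B D G) (ZP A B D G) (kP A B D G) s *
        ∏ j, gh (h0 (ft A B D * g)) (s j) ≤ C * (Real.log y) ^ ((nG G (ft A B D) : ℝ) + e) := by
  classical
  have hs : ∀ c : Fin 4, ∑ j ∈ univ.filter (fun j : JP A B D G => cP A B D G j = c),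
      (nG G (fj A B D j.1) : ℝ) = nG G (fj A B D c) := fun c =>
    sum_JP (fun j => (nG G (fj A B D j) : ℝ)) (fun j hj => by
      show ((nG G (fj A B D j) : ℕ) : ℝ) = 0
      rw [hj, Nat.cast_zero]) c
  obtain ⟨z0, hz0⟩ := at_s (Ir r (cP A B D G)) (w_r (cP A B D G)) (L_r (cP A B D G))
    (fun i => hZ (ZP A B D G) (h0 (ft A B D * g)) i.1.1)
    (psi (cP A B D G) (ZP A B D G) (kP A B D G))
    (2 * d) C0 (fun i => nG G (fj A B D i.1.1.1)) z1 ((nG G (ft A B D) : ℝ) + e)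
    (fun i => hW.wj i.1.1) (fun i p => abs_psi _ _ _ i p) (fun i => by
      unfold w_r wr Pool.Agent.W762.RK2.wc
      split_ifs <;> positivity) (fun i => Ar_orth i.2) (fun U hU => by
      have h1 := comb_m (r := r) (cls := cP A B D G)
        (M := fun j => (nG G (fj A B D j.1) : ℝ))
        (fun j => Nat.cast_nonneg _) (hs 0) (hs 1) (hs 2) hE.nn
        (by rw [fj0, fj1, fj2]; exact hE.h0) (by rw [fj0, fj1, fj2]; exact hE.h1)
        (by rw [fj0, fj1, fj2]; exact hE.h2) hU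
      rw [nG_ft hn]
      push_cast
      exact h1)
  refine ⟨z0, fun z hz hz1 => ?_⟩
  obtain ⟨C, hC⟩ := hz0 z hz
  refine ⟨C, fun y hy => ?_⟩
  rw [exp_s (cP A B D G) (ZP A B D G) (kP A B D G) (h0 (ft A B D * g)) r z y
    (fun p hp hzp j θ hθ k => kP_nd hW.pg hp (by omega) j hθ k)]
  exact le_trans (le_abs_self _) (hC y hy)

lemma log_pow_le (m : ℕ) : ∃ c : ℝ, 1 ≤ c ∧ ∀ X : ℕ, 1 ≤ X → (1 + Real.log X) ^ m ≤ c * X := by
  rcases Nat.eq_zero_or_pos m with rfl | hm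
  · refine ⟨1, le_rfl, fun X hX => ?_⟩
    have hXr : (1 : ℝ) ≤ X := by exact_mod_cast hX
    simpa using hXr
  · have hmr : (1 : ℝ) ≤ m := by exact_mod_cast hm
    have hc : (1 : ℝ) ≤ (m : ℝ) ^ m * Real.exp 1 :=
      one_le_mul_of_one_le_of_one_le (one_le_pow₀ hmr) (Real.one_le_exp (by norm_num))
    refine ⟨_, hc, fun X hX => ?_⟩
    have hXr : (0 : ℝ) < X := by exact_mod_cast hX
    have hl : 0 ≤ Real.log X := Real.log_natCast_nonneg X
    obtain ⟨L, hL⟩ : ∃ L, L = 1 + Real.log X := ⟨_, rfl⟩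
    have hL0 : 0 ≤ L := by rw [hL]; linarith
    have h1 : L / m ≤ Real.exp (L / m) := by
      have := Real.add_one_le_exp (L / m)
      linarith
    have h2 : L ≤ m * Real.exp (L / m) := by
      rw [div_le_iff₀ (by linarith)] at h1
      linarith
    have h3 : L ^ m ≤ (m * Real.exp (L / m)) ^ m := pow_le_pow_left₀ hL0 h2 m
    rw [← hL]
    refine h3.trans (le_of_eq ?_)
    rw [mul_pow, ← Real.exp_nat_mul, mul_div_cancel₀ L (by positivity), hL, Real.exp_add,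
      Real.exp_log hXr, mul_assoc]

lemma lg_le {X y k : ℕ} (hy : 3 ≤ y) (hX : 1 ≤ X) (hk : X < (y + 1) ^ k) :
    1 + Real.log X ≤ 3 ^ k * Real.log y := by
  have hyr : (3 : ℝ) ≤ y := by exact_mod_cast hy
  have hl := log3 hy
  have h1 : Real.log ((y : ℝ) + 1) ≤ 2 * Real.log y := by
    rw [show (2 : ℝ) * Real.log y = Real.log ((y : ℝ) ^ 2) by rw [Real.log_pow]; norm_num]
    apply Real.log_le_log (by linarith)
    nlinarith
  have h2 : Real.log X ≤ k * Real.log ((y : ℝ) + 1) := by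
    rw [← Real.log_pow]
    apply Real.log_le_log (by exact_mod_cast hX)
    exact_mod_cast hk.le
  have h3 : (1 : ℝ) + 2 * k ≤ 3 ^ k := by
    have := one_add_mul_le_pow (show (-2 : ℝ) ≤ 2 by norm_num) k
    norm_num at this
    linarith
  have hk0 : (0 : ℝ) ≤ k := Nat.cast_nonneg k
  have h4 : (k : ℝ) * Real.log ((y : ℝ) + 1) ≤ k * (2 * Real.log y) :=
    mul_le_mul_of_nonneg_left h1 hk0
  have h5 : (1 + 2 * (k : ℝ)) * Real.log y ≤ 3 ^ k * Real.log y :=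
    mul_le_mul_of_nonneg_right h3 (by linarith)
  nlinarith

lemma le_rpow_of {X y n : ℕ} {δ : ℝ} (hδ : 0 < δ) (hy : 1 ≤ y) (hn : 1 / δ ≤ n)
    (h : y ^ n ≤ X) : (y : ℝ) ≤ (X : ℝ) ^ δ := by
  have hyr : (1 : ℝ) ≤ y := by exact_mod_cast hy
  have h1 : (y : ℝ) ^ (1 / δ) ≤ X := by
    refine (Real.rpow_le_rpow_of_exponent_le hyr hn).trans ?_
    rw [Real.rpow_natCast]
    exact_mod_cast h
  calc (y : ℝ) = ((y : ℝ) ^ (1 / δ)) ^ δ := by
        rw [← Real.rpow_mul (by linarith), one_div, inv_mul_cancel₀ hδ.ne', Real.rpow_one]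
    _ ≤ (X : ℝ) ^ δ := Real.rpow_le_rpow (by positivity) h1 hδ.le

open Classical in
/-- the parameters `t ≤ X` with `G(t)` free of primes up to `X ^ δ` -/
noncomputable def TR (A B D G : ℤ[X]) (δ : ℝ) (X : ℕ) : Finset ℕ :=
  (Icc 1 X).filter (fun t : ℕ => (ft A B D).eval (t : ℤ) ≠ 0 ∧
    ∀ p : ℕ, p.Prime → (p : ℝ) ≤ (X : ℝ) ^ δ → ¬ (p : ℤ) ∣ G.eval (t : ℤ))

/-- **the summation** for a function with the local bound -/
theorem sum_RP {r : ℕ} {e : ℝ} {z1 m : ℕ} {C0 : ℝ} (hW : WtP A B D G g d z1 C0)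
    (hE : ExG A B G r e) (hn : ft A B D ≠ 0)
    (hm : nf (ft A B D * g) = m + nG G (ft A B D)) {δ : ℝ} (hδ : 0 < δ)
    {E : ℝ} (hE1 : 1 ≤ E) (R : ℕ → ℝ) (hR0 : ∀ t, 0 ≤ R t)
    {z2 y2 : ℕ} (hR : ∀ z, z2 ≤ z → ∃ A' : ℝ, 0 ≤ A' ∧ ∀ t X y k : ℕ, 1 ≤ t → t ≤ X → y2 ≤ y →
      y ≤ X → X < (y + 1) ^ k → (ft A B D).eval (t : ℤ) ≠ 0 → Ro G z y t →
      R t ≤ A' * E ^ k * ((4 : ℝ) ^ r) ^ (t2 z y ((ft A B D).eval (t : ℤ))).primeFactors.card *
        (NL (∏ j, S1 z y (vP A B D G t) j)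
          (LLc (cP A B D G) (kP A B D G) (S1 z y (vP A B D G t)) (ct A B D t)) : ℝ) ^ r) :
    ∃ C : ℝ, 0 ≤ C ∧ ∀ X : ℕ, 1 ≤ X → ∑ t ∈ TR A B D G δ X, R t ≤
        C * (X / (1 + Real.log X) ^ m * (1 + Real.log X) ^ e) := by
  classical
  obtain ⟨z0, hz0⟩ := ma_P hW hE hn
  obtain ⟨z, hz⟩ : ∃ z, z = z0 + z1 + z2 + 2 := ⟨_, rfl⟩
  have hz2 : 2 ≤ z := by omega
  have Hz := hW.w1.mono (show z1 ≤ z by omega)
  have hfz : Pg (ft A B D) d z := Pg.mono hW.pg (by omega)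
  have hFz : Pg (ft A B D * g) d z := Pg.mono hW.pF (by omega)
  have hem : Em A B D G z := fun j hj p hp hzp => hW.em j hj p hp (by omega)
  have hd1 := hW.d1
  have hdr : (1 : ℝ) ≤ d := by exact_mod_cast hd1
  obtain ⟨C', hC'⟩ := hz0 z (by omega) (by omega)
  obtain ⟨C1', hC1', hP'⟩ := hW.sv z (by omega)
  obtain ⟨C, K, y0, hC0, hK1, hcn⟩ := cntG (G := G) hfz hFz
    (fun p hp hzp => hW.gG p hp (by omega)) hC1' hP'
  obtain ⟨A', hA0, hA⟩ := hR z (by omega)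
  obtain ⟨cm, hcm1, hcm⟩ := log_pow_le m
  obtain ⟨Q, hQ⟩ : ∃ Q : ℝ, Q = (4 : ℝ) ^ r * d := ⟨_, rfl⟩
  have hQ0 : 0 ≤ Q := by rw [hQ]; positivity
  obtain ⟨D0, hD0⟩ : ∃ D0 : ℝ, D0 = E * 3 ^ m := ⟨_, rfl⟩
  have hD01 : 1 ≤ D0 := by
    rw [hD0]
    exact one_le_mul_of_one_le_of_one_le hE1 (one_le_pow₀ (by norm_num))
  have hlogE : 0 ≤ Real.log D0 := Real.log_nonneg hD01
  have hkn : ∀ p : ℕ, p.Prime → z < p → ∀ j, ∀ θ ∈ ZP A B D G j p, ∀ i,
      ¬ (p : ℤ) ∣ kP A B D G j θ i := fun p hp hzp j θ hθ k => kP_nd hfz hp hzp j hθ k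
  obtain ⟨E', hE'0, hE'⟩ := bracketW Hz hQ0 (JP A B D G) (16 * (Real.log D0 + 1)) hz2
    (by linarith)
  obtain ⟨S, hS⟩ : ∃ S : ℕ → ℝ, S = fun X : ℕ => cm * ((X : ℝ) / (1 + Real.log (X : ℝ)) ^ m) := ⟨_, rfl⟩
  have hlX : ∀ X : ℕ, 0 < (1 + Real.log (X : ℝ)) ^ m := fun X => by
    have := Real.log_natCast_nonneg X
    positivity
  have hS1 : ∀ X : ℕ, 1 ≤ X → 1 ≤ S X := by
    intro X hX
    rw [hS]
    show 1 ≤ cm * (X / (1 + Real.log X) ^ m)
    rw [← mul_div_assoc, one_le_div (hlX X)]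
    exact hcm X hX
  obtain ⟨K', hK'⟩ : ∃ K', K' = K + ⌈1 / δ⌉₊ := ⟨_, rfl⟩
  have hant := antG (J := JP A B D G) (Ω := ℕ) Hz Pool.Agent.W358.RK2.gr
    (f := vP A B D G)
    (T := fun X => TR A B D G δ X)
    (S := S) (G := fun _ s => NBS r (cP A B D G) (ZP A B D G) (kP A B D G) s) (R := R)
    (C := C * A') (D := D0) (A1 := E' * |C'|) (Q := Q) (κ := e)
    (K := K') (y0 := y0 + y2 + 3) (Me := nG G (ft A B D)) hz2 hS1
    (fun X t ht => gdP hfz (mem_filter.1 ht).2.1)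
    (fun y s => NBS_nonneg r _ _ _ s) hR0 (by positivity)
    hD01 (by omega) hQ0 hE.nn (fun y hy => ?_) ?_
  · obtain ⟨C2, hC2⟩ := hant
    refine ⟨|C2| * cm, by positivity, fun X hX => ?_⟩
    refine (hC2 X hX).trans ?_
    have h1 : 0 ≤ S X * (1 + Real.log X) ^ e := by
      have h2 := hS1 X hX
      have h3 : 0 ≤ (1 + Real.log X) ^ e :=
        Real.rpow_nonneg (by have := Real.log_natCast_nonneg X; linarith) _
      exact mul_nonneg (by linarith) h3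
    refine (mul_le_mul_of_nonneg_right (le_abs_self C2) h1).trans (le_of_eq ?_)
    rw [hS]
    ring
  · have hy3 : 3 ≤ y := by omega
    have hl1 := log3 hy3
    have hδ' : 0 ≤ 16 * (Real.log D0 + 1) / Real.log y := div_nonneg (by linarith) (by linarith)
    have hm := main_ineqW Hz hQ0 (JP A B D G) y (NBS r (cP A B D G) (ZP A B D G) (kP A B D G))
      (16 * (Real.log D0 + 1) / Real.log y) hδ' (NBS_nonneg r _ _ _)
      (fun s e hse => by
        rw [hQ]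
        exact subb_s Pool.Agent.W125.RK2.sub4 Pool.Agent.W342.RK2.xcl r (cP A B D G)
          (ZP A B D G) (kP A B D G) d z y hz2 hd1 hkn
          (fun p hp hzp j => ZP_card hfz hp hzp j) s e hse)
    refine hm.trans ?_
    have hn0 : 0 ≤ ∑ s ∈ Tup (JP A B D G) z y, NBS r (cP A B D G) (ZP A B D G) (kP A B D G) s *
        ∏ j, gh (h0 (ft A B D * g)) (s j) := by
      refine sum_nonneg fun s hs => mul_nonneg (NBS_nonneg r _ _ _ s) (prod_nonneg fun j _ => ?_)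
      exact gh_nn Hz hs j
    have h1 : ∑ s ∈ Tup (JP A B D G) z y, NBS r (cP A B D G) (ZP A B D G) (kP A B D G) s *
        ∏ j, gh (h0 (ft A B D * g)) (s j) ≤
        |C'| * ((1 + Real.log y) ^ e * (Real.log y) ^ (nG G (ft A B D))) := by
      refine (hC' y hy).trans ?_
      rw [Real.rpow_add (by linarith), Real.rpow_natCast]
      have h2 : (Real.log y) ^ e ≤ (1 + Real.log y) ^ e :=
        Real.rpow_le_rpow (by linarith) (by linarith) hE.nn
      have h3 : 0 ≤ (Real.log y) ^ (nG G (ft A B D)) := by positivity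
      have h4 : 0 ≤ (Real.log y) ^ e := Real.rpow_nonneg (by linarith) _
      calc C' * ((Real.log y) ^ (nG G (ft A B D)) * (Real.log y) ^ e)
          ≤ |C'| * ((Real.log y) ^ (nG G (ft A B D)) * (Real.log y) ^ e) :=
            mul_le_mul_of_nonneg_right (le_abs_self _) (mul_nonneg h3 h4)
        _ ≤ |C'| * ((1 + Real.log y) ^ e * (Real.log y) ^ (nG G (ft A B D))) := by
            apply mul_le_mul_of_nonneg_left _ (abs_nonneg _)
            rw [mul_comm]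
            exact mul_le_mul_of_nonneg_right h2 h3
    calc _ ≤ E' * ∑ s ∈ Tup (JP A B D G) z y,
          NBS r (cP A B D G) (ZP A B D G) (kP A B D G) s *
          ∏ j, gh (h0 (ft A B D * g)) (s j) := mul_le_mul_of_nonneg_right (hE' y hy) hn0
      _ ≤ E' * (|C'| * ((1 + Real.log y) ^ e * (Real.log y) ^ (nG G (ft A B D)))) :=
          mul_le_mul_of_nonneg_left h1 hE'0
      _ = _ := by ring
  intro X y Y k hy0 hzy hyK hk s hs v hv u hu h8 T' hT' hT2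
  have hy3 : 3 ≤ y := by omega
  have hyX : y ≤ X := le_trans (Nat.le_self_pow (by omega) y) hyK
  have hX1 : 1 ≤ X := by omega
  have hyK1 : y ^ K ≤ X := le_trans (Nat.pow_le_pow_right (by omega) (by omega)) hyK
  have hyδ : (y : ℝ) ≤ (X : ℝ) ^ δ := by
    refine le_rpow_of hδ (by omega) (Nat.le_ceil _) ?_
    exact le_trans (Nat.pow_le_pow_right (by omega) (by omega)) hyK
  obtain ⟨s', hs'd⟩ : ∃ s', s' = ∏ j, s j := ⟨_, rfl⟩
  obtain ⟨v', hv'd⟩ : ∃ v', v' = ∏ j, v j := ⟨_, rfl⟩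
  obtain ⟨u', hu'd⟩ : ∃ u', u' = ∏ j, u j := ⟨_, rfl⟩
  have hs' : s' ∈ (PP z y).divisors := by rw [hs'd]; exact prod_dv hs
  have hv' : v' ∈ (PP z y).divisors := by rw [hv'd]; exact prod_dv hv
  have hu' : u' ∈ (PP y Y).divisors := by rw [hu'd]; exact prod_dv hu
  have h8' : (s' * v' * u') ^ 8 ≤ X := by
    rw [hs'd, hv'd, hu'd, ← prod_mul_distrib, ← prod_mul_distrib]
    exact h8
  have hPs : Ps s = s'.primeFactors := by rw [hs'd]; rfl
  obtain ⟨gg, hgg⟩ : ∃ gg : (∀ p ∈ Ps s, Bool × ℕ) → ℝ,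
    gg = fun c => (NL (∏ j, s j) (LLc (cP A B D G) (kP A B D G) s (xt (Ps s) c)) : ℝ) ^ r :=
    ⟨_, rfl⟩
  have hg0 : ∀ c, 0 ≤ gg c := fun c => by rw [hgg]; exact pow_nonneg (Nat.cast_nonneg _) _
  obtain ⟨cc, hcc⟩ : ∃ cc : ℕ → (∀ p ∈ Ps s, Bool × ℕ), cc = fun t p _ => ct A B D t p := ⟨_, rfl⟩
  have hro : ∀ t ∈ T', Ro G z y t := by
    intro t ht p hp
    have ht' := (mem_filter.1 (hT' ht)).2.2
    refine ht' p (mem_PS.1 hp).2 (le_trans ?_ hyδ)
    exact_mod_cast (mem_PS.1 hp).1.2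
  have hgd : ∀ t ∈ T', (ft A B D).eval (t : ℤ) ≠ 0 ∧ t ∈ Icc 1 X ∧
      t1 z y ((ft A B D).eval (t : ℤ)) = s' ∧ t2 z y ((ft A B D).eval (t : ℤ)) = v' ∧
      (u' : ℤ) ∣ (ft A B D).eval (t : ℤ) := by
    intro t ht
    have ht' := mem_filter.1 (hT' ht)
    obtain ⟨hts, htv, htu⟩ := hT2 t ht
    refine ⟨ht'.2.1, ht'.1, ?_, ?_, ?_⟩
    · rw [← prod_S1P hfz hem (hro t ht) ht'.2.1, hts, hs'd]
    · rw [← prod_S2P hfz hem (hro t ht) ht'.2.1, htv, hv'd]
    · rw [hu'd, Nat.cast_prod]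
      refine Finset.prod_dvd_of_coprime ?_ fun j _ => ?_
      · intro i _ j _ hij
        exact Nat.isCoprime_iff_coprime.2 (Tup_cop hu i j hij)
      · refine (htu j).trans ?_
        rw [ft_eval A B D j.1]
        exact Dvd.intro _ rfl
  have hsj : ∀ t ∈ T', ∀ (p : ℕ) (j : JP A B D G), p.Prime → p ∣ s j →
      p ∈ PS z y ∧ (p : ℤ) ∣ (fj A B D j.1).eval (t : ℤ) := by
    intro t ht p j hp hpj
    have h1 := (hT2 t ht).1
    rw [← h1] at hpj
    unfold S1 at hpj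
    obtain ⟨q, hq, hpq⟩ := (hp.prime.dvd_finsetProd_iff _).1 hpj
    rw [mem_filter] at hq
    rw [(Nat.prime_dvd_prime_iff_eq hp (mem_PS.1 hq.1).2).1 hpq]
    exact ⟨hq.1, hq.2.1⟩
  have hxt : ∀ t, ∀ p ∈ Ps s, xt (Ps s) (cc t) p = ct A B D t p := by
    intro t p hp
    unfold xt
    rw [dif_pos hp, hcc]
  have h1 : ∀ t ∈ T', R t ≤ A' * E ^ k * ((4 : ℝ) ^ r) ^ v'.primeFactors.card * gg (cc t) := by
    intro t ht
    obtain ⟨h0t, htI, ht1, ht2, _⟩ := hgd t ht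
    rw [mem_Icc] at htI
    have h2 := hA t X y k htI.1 htI.2 (by omega) hyX hk h0t (hro t ht)
    rw [ht2, (hT2 t ht).1] at h2
    refine h2.trans (le_of_eq ?_)
    rw [hgg]
    simp only
    congr 3
    apply Pool.Agent.W125.RK2.NL_congr
    intro p hp
    funext v w h g
    unfold LLc
    rw [hxt t p hp]
  have hmaps : ∀ t ∈ T', cc t ∈ (Ps s).pi (Cf (ZP A B D G) s) := by
    intro t ht
    rw [mem_pi]
    intro p hp
    have hpp := Nat.prime_of_mem_primeFactors hp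
    obtain ⟨j, _, hj⟩ := (hpp.prime.dvd_finsetProd_iff _).1 (Nat.dvd_of_mem_primeFactors hp)
    rw [hcc]
    unfold Cf
    rw [mem_product, Zs_eq (Tup_cop hs) _ hpp hj]
    refine ⟨mem_univ _, ?_⟩
    unfold ZP ct
    rw [mem_filter, mem_range]
    obtain ⟨hPS, hdv⟩ := hsj t ht p j hpp hj
    refine ⟨Nat.mod_lt _ hpp.pos, ?_, ?_⟩
    · exact (dvd_iff_dvd_of_dvd_sub (eval_cong (fj A B D j.1) p t)).2 hdv
    · intro h
      exact hro t ht p hPS ((dvd_iff_dvd_of_dvd_sub (eval_cong G p t)).1 h)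
  have h2 : ∑ t ∈ T', gg (cc t) = ∑ c ∈ (Ps s).pi (Cf (ZP A B D G) s),
        ((T'.filter (fun t : ℕ => cc t = c)).card : ℝ) * gg c := by
    rw [← sum_fiberwise_of_maps_to hmaps]
    refine sum_congr rfl fun c _ => ?_
    rw [← nsmul_eq_mul, ← sum_const]
    refine sum_congr rfl fun t ht => ?_
    rw [(mem_filter.1 ht).2]
  obtain ⟨F, hF⟩ : ∃ F, F = ft A B D * g := ⟨_, rfl⟩
  rw [← hF] at hcn hm Hz
  rw [← hF]
  obtain ⟨W, hW'⟩ : ∃ W : ℝ, W = C * X * (1 / 2) ^ s'.primeFactors.card * gh (h0 F) s' *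
        ((d : ℝ) ^ v'.primeFactors.card * (gh (h0 F) v' / v')) *
          ((d : ℝ) ^ u'.primeFactors.card / u') / (Real.log y) ^ (nf F) := ⟨_, rfl⟩
  have h3 : ∀ c ∈ (Ps s).pi (Cf (ZP A B D G) s),
      ((T'.filter (fun t : ℕ => cc t = c)).card : ℝ) * gg c ≤ W * gg c := by
    intro c _
    refine mul_le_mul_of_nonneg_right ?_ (hg0 c)
    rw [hW']
    refine le_trans ?_ (hcn X y Y (by omega) hzy hyK1 s' hs' v' hv' u' hu' h8'
      (s'.primeFactors.filter (fun p => (xt (Ps s) c p).1 = true)) (fun p => (xt (Ps s) c p).2))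
    have h4 : T'.filter (fun t : ℕ => cc t = c) ⊆
        (Icc 1 X).filter (fun t : ℕ => (∀ p ∈ PS z y, ¬ (p : ℤ) ∣ G.eval (t : ℤ)) ∧
          t1 z y ((ft A B D).eval (t : ℤ)) = s' ∧
          t2 z y ((ft A B D).eval (t : ℤ)) = v' ∧ (u' : ℤ) ∣ (ft A B D).eval (t : ℤ) ∧
          ngs ((ft A B D).eval (t : ℤ)) s' =
            s'.primeFactors.filter (fun p => (xt (Ps s) c p).1 = true) ∧
          ∀ p ∈ s'.primeFactors, t % p = (xt (Ps s) c p).2) := by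
      intro t ht
      rw [mem_filter] at ht
      obtain ⟨h0t, htI, ht1, ht2, htu⟩ := hgd t ht.1
      rw [mem_filter]
      refine ⟨htI, hro t ht.1, ht1, ht2, htu, ?_, ?_⟩
      · unfold ngs
        refine filter_congr fun p hp => ?_
        rw [← hPs] at hp
        rw [← ht.2, hxt t p hp]
        unfold ct
        simp only [decide_eq_true_eq]
      · intro p hp
        rw [← hPs] at hp
        rw [← ht.2, hxt t p hp]
        rfl
    exact_mod_cast card_le_card h4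
  have hNB : NBS r (cP A B D G) (ZP A B D G) (kP A B D G) s = (1 / 2) ^ s'.primeFactors.card *
      ∑ c ∈ (Ps s).pi (Cf (ZP A B D G) s), gg c := by
    unfold NBS
    rw [hgg, hPs]
  have hd2 : (d : ℝ) ^ u'.primeFactors.card / u' ≤ (2 * (d : ℝ)) ^ u'.primeFactors.card / u' := by
    apply div_le_div_of_nonneg_right _ (Nat.cast_nonneg _)
    apply pow_le_pow_left₀ (Nat.cast_nonneg _)
    linarith
  have hgs0 : 0 ≤ gh (h0 F) s' := ghn Hz (Nat.dvd_of_mem_divisors hs')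
  have hgv0 : 0 ≤ gh (h0 F) v' := ghn Hz (Nat.dvd_of_mem_divisors hv')
  have hNB0 := NBS_nonneg r (cP A B D G) (ZP A B D G) (kP A B D G) s
  have hly : 0 ≤ Real.log y := Real.log_natCast_nonneg y
  have hly0 : 0 < Real.log y := by have := log3 hy3; linarith
  have eS : gh (h0 F) s' = ∏ j, gh (h0 F) (s j) := by
    rw [hs'd]; exact gh_T hs _
  have eV : Q ^ v'.primeFactors.card * (gh (h0 F) v' / v') =
      ∏ j, Q ^ (v j).primeFactors.card * (gh (h0 F) (v j) / v j) := by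
    rw [hv'd, gh_T hv, pow_T hv, Nat.cast_prod, ← prod_div_distrib, ← prod_mul_distrib]
  have eU : (2 * (d : ℝ)) ^ u'.primeFactors.card / u' =
      ∏ j, (2 * (d : ℝ)) ^ (u j).primeFactors.card / (u j : ℝ) := by
    rw [hu'd, pow_T hu, Nat.cast_prod, ← prod_div_distrib]
  -- the sieve of `G`
  have hsv : (X : ℝ) / (Real.log y) ^ (nf F) ≤
      (3 ^ m) ^ k * S X / (Real.log y) ^ (nG G (ft A B D)) := by
    have e1 : (1 + Real.log X) ^ m ≤ (3 ^ m) ^ k * (Real.log y) ^ m := by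
      refine (pow_le_pow_left₀ (by have := Real.log_natCast_nonneg X; linarith)
        (lg_le hy3 hX1 hk) m).trans (le_of_eq ?_)
      rw [mul_pow, pow_right_comm]
    have e2 : (X : ℝ) / (1 + Real.log X) ^ m ≤ S X := by
      rw [hS]
      exact le_mul_of_one_le_left (div_nonneg (Nat.cast_nonneg _) (hlX X).le) hcm1
    rw [hm, pow_add, ← div_div]
    apply div_le_div_of_nonneg_right _ (by positivity)
    calc (X : ℝ) / (Real.log y) ^ m ≤ (3 ^ m) ^ k * (X / (1 + Real.log X) ^ m) := by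
          rw [← mul_div_assoc, div_le_div_iff₀ (by positivity) (hlX X)]
          have := mul_le_mul_of_nonneg_left e1 (Nat.cast_nonneg X : (0 : ℝ) ≤ X)
          calc (X : ℝ) * (1 + Real.log X) ^ m ≤ X * ((3 ^ m) ^ k * Real.log y ^ m) := this
            _ = _ := by ring
      _ ≤ _ := mul_le_mul_of_nonneg_left e2 (by positivity)
  calc ∑ t ∈ T', R t ≤ ∑ t ∈ T', A' * E ^ k * ((4 : ℝ) ^ r) ^ v'.primeFactors.card *
          gg (cc t) := sum_le_sum h1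
    _ = A' * E ^ k * ((4 : ℝ) ^ r) ^ v'.primeFactors.card *
        ∑ c ∈ (Ps s).pi (Cf (ZP A B D G) s),
        ((T'.filter (fun t : ℕ => cc t = c)).card : ℝ) * gg c := by
        rw [← mul_sum, h2]
    _ ≤ A' * E ^ k * ((4 : ℝ) ^ r) ^ v'.primeFactors.card *
        ∑ c ∈ (Ps s).pi (Cf (ZP A B D G) s), W * gg c :=
        mul_le_mul_of_nonneg_left (sum_le_sum h3) (by positivity)
    _ = C * A' * E ^ k * (NBS r (cP A B D G) (ZP A B D G) (kP A B D G) s * gh (h0 F) s') *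
          ((((4 : ℝ) ^ r) ^ v'.primeFactors.card * (d : ℝ) ^ v'.primeFactors.card) *
            (gh (h0 F) v' / v')) *
          ((d : ℝ) ^ u'.primeFactors.card / u') * (X / (Real.log y) ^ (nf F)) := by
        rw [← mul_sum, hNB, hW']
        ring
    _ ≤ C * A' * E ^ k * (NBS r (cP A B D G) (ZP A B D G) (kP A B D G) s * gh (h0 F) s') *
          ((((4 : ℝ) ^ r) ^ v'.primeFactors.card * (d : ℝ) ^ v'.primeFactors.card) *
            (gh (h0 F) v' / v')) *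
          ((2 * (d : ℝ)) ^ u'.primeFactors.card / u') *
          ((3 ^ m) ^ k * S X / (Real.log y) ^ (nG G (ft A B D))) := by
        apply mul_le_mul _ hsv (by positivity) (by positivity)
        apply mul_le_mul_of_nonneg_left hd2 (by positivity)
    _ = C * A' * D0 ^ k * S X * (NBS r (cP A B D G) (ZP A B D G) (kP A B D G) s *
          gh (h0 F) s') * (Q ^ v'.primeFactors.card * (gh (h0 F) v' / v')) *
          ((2 * (d : ℝ)) ^ u'.primeFactors.card / u') /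
          (Real.log y) ^ (nG G (ft A B D)) := by
        rw [← mul_pow, ← hQ, hD0, mul_pow]
        ring
    _ = _ := by
        rw [eV, eU, eS]

end Pool.Agent.U376.GR
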