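import Mathlib
import Pool.Agent.U376.GR.Main

/-!
# The moments at the parameters `t` for which `G(t)` has no small prime factor: assembly
-/

set_option autoImplicit false

namespace Pool.Agent.U376.GR

open Finset Polynomial Pool.Agent.W262.RK Pool.Agent.U214.PT Pool.Agent.U214.GT
open Pool.Agent.H474R2.PG (rho)

/-- the weights of the family -/
theorem wtP_of {A B D G g : ℤ[X]} (hs : Sep (ft A B D)) (hG : Sep G) (hsF : Sep (ft A B D * g))
    (hd : 0 < (ft A B D * g).natDegree) {zg : ℕ} (hzg : ∀ p : ℕ, p.Prime → zg < p → ∀ t : ℤ,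
      (p : ℤ) ∣ g.eval t → (p : ℤ) ∣ G.eval t) :
    ∃ (z1 : ℕ) (C0 : ℝ), WtP A B D G g (ft A B D * g).natDegree z1 C0 := by
  classical
  obtain ⟨F, hF⟩ : ∃ F, F = ft A B D * g := ⟨_, rfl⟩
  rw [← hF] at hsF hd
  obtain ⟨c, hc, hMc⟩ := mert_nf _ hsF
  obtain ⟨c1, hc1, hM1⟩ := mert_one
  obtain ⟨N, hN, A', B', hAB⟩ := id hsF
  obtain ⟨B0, hB0⟩ := Pool.Agent.H474R2.PG.rho_le F (fun h => by
    rw [h, natDegree_zero] at hd; exact absurd hd (lt_irrefl 0))
  obtain ⟨d, hdd⟩ : ∃ d, d = F.natDegree := ⟨_, rfl⟩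
  have hsj : ∀ j : Fin 4, Sep (fj A B D j) := by
    intro j
    have h := hs
    rw [← fj_mul A B D j] at h
    exact sep_left h
  choose b hsb hnb hcb zb hzb using fun j => split (hsj j) (ne_of_sep hG)
  obtain ⟨zz, hzz⟩ : ∃ zz, zz = ∑ j, (zb j + ((b j).coeff 0).natAbs) := ⟨_, rfl⟩
  have hzz' : ∀ j, zb j + ((b j).coeff 0).natAbs ≤ zz := fun j => by
    rw [hzz]
    exact single_le_sum (f := fun j => zb j + ((b j).coeff 0).natAbs)
      (fun _ _ => Nat.zero_le _) (mem_univ j)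
  obtain ⟨z1, hz1⟩ : ∃ z1, z1 = 2 * d + 3 + N.natAbs + B0 + zg + zz := ⟨_, rfl⟩
  have hPF : Pg F d z1 := by
    refine ⟨by omega, fun p hp h => ?_, fun p hp hz t h1 h2 => ?_⟩
    · rw [hdd]
      exact hB0 p hp (by omega)
    · have h3 := dvd_of_sep hAB h1 h2
      have := Nat.le_of_dvd (Int.natAbs_pos.2 hN) (Int.natCast_dvd.1 h3)
      omega
  have hPg : Pg (ft A B D) d z1 := by
    refine ⟨hPF.zd, fun p hp h => le_trans ?_ (hPF.rho p hp h), fun p hp hz t h1 h2 => ?_⟩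
    · unfold rho
      apply card_le_card
      intro a ha
      rw [mem_filter] at ha ⊢
      refine ⟨ha.1, ?_⟩
      rw [hF, eval_mul]
      exact ha.2.mul_right _
    · refine hPF.der p hp hz t ?_ ?_
      · rw [hF, eval_mul]
        exact h1.mul_right _
      · rw [hF, derivative_mul, eval_add, eval_mul, eval_mul]
        exact dvd_add (h2.mul_right _) (h1.mul_right _)
  have hem : Em A B D G z1 := by
    intro j hj p hp hzp t ht
    by_contra hcon
    have h1 := (hzb j p hp (by have := hzz' j; omega) t).1 ⟨ht, hcon⟩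
    have h2 : (b j).natDegree = 0 := by
      by_contra h3
      have := nf_pos (Nat.pos_of_ne_zero h3)
      rw [hnb j, hj] at this
      exact absurd this (lt_irrefl 0)
    rw [eq_C_of_natDegree_eq_zero h2, eval_C] at h1
    have h3 : (b j).coeff 0 ≠ 0 := by
      intro h4
      apply ne_of_sep (hsb j)
      rw [eq_C_of_natDegree_eq_zero h2, h4, C_0]
    have := Nat.le_of_dvd (Int.natAbs_pos.2 h3) (Int.natCast_dvd.1 h1)
    have := hzz' j
    omega
  obtain ⟨C1, hC1, hW1⟩ := wt_gen (a := fun _ => 1) (M := 1) one_pos hc1 hM1 hPF (by omega)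
    (fun p _ _ => by omega)
  have hj : ∀ j : JP A B D G, ∃ C : ℝ, 0 ≤ C ∧ ∀ C', C ≤ C' →
      Wt (hZ (ZP A B D G) (h0 F) j) (2 * d) C' (nG G (fj A B D j.1)) z1 := by
    intro j
    obtain ⟨cj, hcj, hMj⟩ := mert_nf _ (hsb j.1)
    obtain ⟨c', hc', hcl⟩ := Sg_close (r := fun p => (ZP A B D G j p).card) (r' := rho (b j.1))
      (zb j.1) (fun p hp hzp => by
        unfold ZP rho
        congr 1
        refine filter_congr fun a _ => ?_
        exact hzb j.1 p hp hzp (a : ℤ))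
    refine wt_gen (a := fun p => (ZP A B D G j p).card) (c := cj + c') j.2 (by positivity)
      (fun w hw => ?_) hPF (by omega) (fun p hp h => ZP_card hPg hp h j)
    have h1 := hMj w hw
    have h2 := hcl w
    rw [hnb j.1] at h1
    rw [abs_le] at h1 h2 ⊢
    constructor <;> linarith
  choose Cj hCj hWj using hj
  obtain ⟨C0, hC0⟩ : ∃ C0 : ℝ, C0 = C1 + ∑ j, Cj j := ⟨_, rfl⟩
  have hsum : 0 ≤ ∑ j, Cj j := sum_nonneg fun j _ => hCj j
  refine ⟨z1, C0, ?_⟩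
  rw [← hF, ← hdd]
  refine ⟨hPg, by rw [← hF]; exact hPF, fun p hp hzp => hzg p hp (by omega), hem, by omega, ?_,
    fun j => ?_, ?_⟩
  · have := hW1 C0 (by rw [hC0]; linarith)
    rw [← hF]
    simpa using this
  · rw [← hF]
    refine hWj j C0 ?_
    have := single_le_sum (fun j _ => hCj j) (mem_univ j)
    rw [hC0]
    linarith
  · rw [← hF]
    exact prod_gen hMc hPF (by omega)

variable {Q : ℤ → ℤ → ℝ}

/-- the bound -/
noncomputable def bd (G : ℤ[X]) (e : ℝ) (X : ℕ) : ℝ :=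
  X / (1 + Real.log X) ^ (nf G) * (1 + Real.log X) ^ e

lemma bd_ge (G : ℤ[X]) {e : ℝ} (he : 0 ≤ e) : ∃ c : ℝ, 0 < c ∧ ∀ X : ℕ, 1 ≤ X → c ≤ bd G e X := by
  obtain ⟨c, hc1, hc⟩ := log_pow_le (nf G)
  refine ⟨c⁻¹, by positivity, fun X hX => ?_⟩
  have hl : 0 ≤ Real.log X := Real.log_natCast_nonneg X
  have h1 : c⁻¹ ≤ X / (1 + Real.log X) ^ (nf G) := by
    rw [le_div_iff₀ (by positivity), inv_mul_le_iff₀ (by linarith)]
    exact hc X hX
  have h2 : 1 ≤ (1 + Real.log X) ^ e := Real.one_le_rpow (by linarith) he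
  unfold bd
  have h3 : 0 ≤ X / (1 + Real.log X) ^ (nf G) := le_trans (by positivity) h1
  calc c⁻¹ ≤ X / (1 + Real.log X) ^ (nf G) := h1
    _ = X / (1 + Real.log X) ^ (nf G) * 1 := (mul_one _).symm
    _ ≤ _ := mul_le_mul_of_nonneg_left h2 h3

/-- the family away from the zeros -/
theorem half_sepP (hQ : QL Q) {A B D G : ℤ[X]} (hs : Sep (ft A B D)) (hG : Sep G)
    {r : ℕ} {e : ℝ} (hE : ExG A B G r e) {δ : ℝ} (hδ : 0 < δ) :
    ∃ C : ℝ, 0 ≤ C ∧ ∀ X : ℕ, 1 ≤ X → ∑ t ∈ TR A B D G δ X,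
        Q (A.eval (t : ℤ) * D.eval (t : ℤ)) (B.eval (t : ℤ) * D.eval (t : ℤ)) ^ r ≤
        C * bd G e X := by
  classical
  have hn : ft A B D ≠ 0 := ne_of_sep hs
  obtain ⟨g, hsF, hnF, zg, hzg⟩ := cof hs hG
  rcases Nat.eq_zero_or_pos (ft A B D * g).natDegree with h | h
  · have hg0 : g ≠ 0 := right_ne_zero_of_mul (ne_of_sep hsF)
    rw [natDegree_mul hn hg0] at h
    have hd0 : (ft A B D).natDegree = 0 := by omega
    have hnf0 : nf G = 0 := by
      have h1 : nf (ft A B D * g) = 0 := by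
        by_contra hcon
        have := nf_deg (Nat.pos_of_ne_zero hcon)
        rw [natDegree_mul hn hg0] at this
        omega
      omega
    have h1 : ∀ j, ∀ t : ℤ, (fj A B D j).eval t = (fj A B D j).coeff 0 := by
      intro j t
      have h2 : (fj A B D j).natDegree = 0 := by
        rw [← fj_mul A B D j] at hd0 hn
        rw [natDegree_mul (left_ne_zero_of_mul hn) (right_ne_zero_of_mul hn)] at hd0
        omega
      conv_lhs => rw [eq_C_of_natDegree_eq_zero h2]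
      rw [eval_C]
    have hA := h1 0
    have hB := h1 1
    have hD := h1 3
    rw [fj0] at hA
    rw [fj1] at hB
    rw [fj3] at hD
    refine ⟨Q (A.coeff 0 * D.coeff 0) (B.coeff 0 * D.coeff 0) ^ r, pow_nonneg (hQ.nn _ _) _,
      fun X hX => ?_⟩
    simp only [hA, hB, hD]
    unfold bd
    rw [hnf0, pow_zero, div_one]
    refine le_trans ?_ (le_XL (pow_nonneg (hQ.nn _ _) _) hE.nn hX)
    rw [sum_const, nsmul_eq_mul, mul_comm]
    refine mul_le_mul_of_nonneg_left ?_ (pow_nonneg (hQ.nn _ _) _)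
    have : (TR A B D G δ X).card ≤ (Icc 1 X).card := card_filter_le _ _
    rw [Nat.card_Icc] at this
    exact_mod_cast this
  · obtain ⟨z1, C0, hW⟩ := wtP_of hs hG hsF h hzg
    obtain ⟨K, hK1, hK⟩ := Pool.Agent.H474R2.GE.eval_bound (ft A B D)
    obtain ⟨d, hdd⟩ : ∃ d, d = (ft A B D).natDegree := ⟨_, rfl⟩
    rw [← hdd] at hK
    obtain ⟨y2, hy2⟩ := exists_nat_ge K
    refine sum_RP (E := ((4 : ℝ) ^ (d + 1)) ^ r) hW hE hn hnF hδ
      (one_le_pow₀ (one_le_pow₀ (by norm_num)))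
      (fun t : ℕ => Q (A.eval (t : ℤ) * D.eval (t : ℤ)) (B.eval (t : ℤ) * D.eval (t : ℤ)) ^ r)
      (fun t => pow_nonneg (hQ.nn _ _) _) (z2 := z1) (y2 := max 1 y2) (fun z hz => ?_)
    refine ⟨((4 : ℝ) ^ (z + 2)) ^ r, by positivity, fun t X y k ht htX hy2y hyX hk h0 hro => ?_⟩
    have hF : ((ft A B D).eval (t : ℤ)).natAbs ≤ X ^ (d + 1) := by
      have hXr : (1 : ℝ) ≤ X := by exact_mod_cast (by omega : 1 ≤ X)
      have h1 := hK (t : ℤ) X hXr (by
        rw [Int.cast_natCast, abs_of_nonneg (Nat.cast_nonneg t)]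
        exact_mod_cast htX)
      have h2 : K ≤ X :=
        hy2.trans (by exact_mod_cast (le_trans (le_max_right 1 y2) (hy2y.trans hyX)))
      have h3 : ((((ft A B D).eval (t : ℤ)).natAbs : ℕ) : ℝ) ≤ (X : ℝ) ^ (d + 1) := by
        rw [Nat.cast_natAbs, Int.cast_abs]
        refine h1.trans ?_
        rw [pow_succ, mul_comm ((X : ℝ) ^ d)]
        exact mul_le_mul_of_nonneg_right h2 (by positivity)
      exact_mod_cast h3
    have hPz := Pg.mono hW.pg hz
    have hEz : Em A B D G z := fun j hj p hp hzp => hW.em j hj p hp (by omega)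
    have h6 := rankG hQ hPz h0 hF (by omega) (le_trans (le_max_left _ _) hy2y) hk
    rw [NL_P hPz hEz hro h0] at h6
    refine (pow_le_pow_left₀ (hQ.nn _ _) h6 r).trans (le_of_eq ?_)
    rw [mul_pow, mul_pow, mul_pow, pow_right_comm _ k r,
      pow_right_comm _ (t2 z y ((ft A B D).eval (t : ℤ))).primeFactors.card r]

open Classical in
/-- the parameters `t ≤ X` with `G(t)` free of primes up to `X ^ δ` -/
noncomputable def RG (G : ℤ[X]) (δ : ℝ) (X : ℕ) : Finset ℕ :=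
  (Icc 1 X).filter (fun t : ℕ =>
    ∀ p : ℕ, p.Prime → (p : ℝ) ≤ (X : ℝ) ^ δ → ¬ (p : ℤ) ∣ G.eval (t : ℤ))

/-- the twist by a polynomial which is `D` up to squares -/
theorem half_DP (hQ : QL Q) {A B D D' G H : ℤ[X]} {c : ℤ} (hc : c ≠ 0) (hH : H ≠ 0)
    (hD : C (c ^ 2) * D' = H ^ 2 * D) (hs : Sep (ft A B D)) (hG : Sep G) {r : ℕ} {e : ℝ}
    (hE : ExG A B G r e) {δ : ℝ} (hδ : 0 < δ) :
    ∃ C : ℝ, 0 ≤ C ∧ ∀ X : ℕ, 1 ≤ X → ∑ t ∈ RG G δ X,
        Q (A.eval (t : ℤ) * D'.eval (t : ℤ)) (B.eval (t : ℤ) * D'.eval (t : ℤ)) ^ r ≤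
        C * bd G e X := by
  classical
  obtain ⟨C1, hC10, hC1⟩ := half_sepP hQ hs hG hE hδ
  obtain ⟨cm, hcm0, hcm⟩ := bd_ge G hE.nn
  have hft : ft A B D ≠ 0 := ne_of_sep hs
  obtain ⟨P, hP⟩ : ∃ P, P = ft A B D * H := ⟨_, rfl⟩
  have hP0 : P ≠ 0 := by rw [hP]; exact mul_ne_zero hft hH
  obtain ⟨Z, hZ⟩ : ∃ Z : Finset ℕ, ∀ t : ℕ, P.eval (t : ℤ) = 0 → t ∈ Z := by
    refine ⟨P.roots.toFinset.image Int.natAbs, fun t ht => ?_⟩
    rw [mem_image]
    refine ⟨(t : ℤ), ?_, Int.natAbs_natCast t⟩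
    rw [Multiset.mem_toFinset, mem_roots hP0]
    exact ht
  obtain ⟨R, hR⟩ : ∃ R : ℕ → ℝ, R = fun t : ℕ =>
      Q (A.eval (t : ℤ) * D'.eval (t : ℤ)) (B.eval (t : ℤ) * D'.eval (t : ℤ)) ^ r := ⟨_, rfl⟩
  have hR0 : ∀ t, 0 ≤ R t := fun t => by
    rw [hR]
    exact pow_nonneg (hQ.nn _ _) _
  have heq : ∀ t : ℕ, P.eval (t : ℤ) ≠ 0 → R t =
      Q (A.eval (t : ℤ) * D.eval (t : ℤ)) (B.eval (t : ℤ) * D.eval (t : ℤ)) ^ r := by
    intro t ht
    rw [hP, eval_mul] at ht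
    have ht1 := left_ne_zero_of_mul ht
    have hg := right_ne_zero_of_mul ht
    have ha := fj_ne ht1 0
    have hb := fj_ne ht1 1
    have hab := fj_ne ht1 2
    have hd := fj_ne ht1 3
    rw [fj0] at ha
    rw [fj1] at hb
    rw [fj2, eval_sub] at hab
    rw [fj3] at hd
    have hev : c ^ 2 * D'.eval (t : ℤ) = (H.eval (t : ℤ)) ^ 2 * D.eval (t : ℤ) := by
      have := congrArg (eval (t : ℤ)) hD
      simpa only [eval_mul, eval_C, eval_pow] using this
    have hd' : D'.eval (t : ℤ) ≠ 0 := by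
      intro h
      rw [h, mul_zero] at hev
      exact mul_ne_zero (pow_ne_zero 2 hg) hd hev.symm
    have hne : ∀ x : ℤ, x ≠ 0 → A.eval (t : ℤ) * x ≠ B.eval (t : ℤ) * x := fun x hx h =>
      hab (by rw [mul_right_cancel₀ hx h, sub_self])
    rw [hR]
    show Q (A.eval (t : ℤ) * D'.eval (t : ℤ)) (B.eval (t : ℤ) * D'.eval (t : ℤ)) ^ r = _
    rw [← hQ.sq (mul_ne_zero ha hd') (mul_ne_zero hb hd') (hne _ hd') hc,
      ← hQ.sq (mul_ne_zero ha hd) (mul_ne_zero hb hd) (hne _ hd) hg,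
      show c ^ 2 * (A.eval (t : ℤ) * D'.eval (t : ℤ)) =
        (H.eval (t : ℤ)) ^ 2 * (A.eval (t : ℤ) * D.eval (t : ℤ)) by
          linear_combination A.eval (t : ℤ) * hev,
      show c ^ 2 * (B.eval (t : ℤ) * D'.eval (t : ℤ)) =
        (H.eval (t : ℤ)) ^ 2 * (B.eval (t : ℤ) * D.eval (t : ℤ)) by
          linear_combination B.eval (t : ℤ) * hev]
  have hZ0 : 0 ≤ ∑ t ∈ Z, R t := sum_nonneg fun t _ => hR0 t
  refine ⟨C1 + (∑ t ∈ Z, R t) * cm⁻¹, by positivity, fun X hX => ?_⟩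
  have h1 := hC1 X hX
  have hcX := hcm X hX
  have h2 : ∑ t ∈ (RG G δ X).filter (fun t : ℕ => ¬ P.eval (t : ℤ) ≠ 0), R t ≤ ∑ t ∈ Z, R t := by
    refine sum_le_sum_of_subset_of_nonneg ?_ (fun t _ _ => hR0 t)
    intro t ht
    rw [mem_filter] at ht
    exact hZ t (not_not.1 ht.2)
  have h3 : ∑ t ∈ Z, R t ≤ (∑ t ∈ Z, R t) * cm⁻¹ * bd G e X := by
    rw [mul_assoc]
    refine le_mul_of_one_le_right hZ0 ?_
    rw [inv_mul_eq_div, one_le_div hcm0]
    exact hcX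
  have h6 : ∑ t ∈ (RG G δ X).filter (fun t : ℕ => P.eval (t : ℤ) ≠ 0), R t ≤ C1 * bd G e X := by
    refine le_trans ?_ h1
    rw [sum_congr rfl (fun t ht => heq t (mem_filter.1 ht).2)]
    refine sum_le_sum_of_subset_of_nonneg ?_ (fun t _ _ => pow_nonneg (hQ.nn _ _) _)
    intro t ht
    rw [mem_filter] at ht
    unfold RG at ht
    rw [mem_filter] at ht
    unfold TR
    rw [mem_filter]
    refine ⟨ht.1.1, ?_, ht.1.2⟩
    have := ht.2
    rw [hP, eval_mul] at this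
    exact left_ne_zero_of_mul this
  have h4 := sum_filter_add_sum_filter_not (RG G δ X) (fun t : ℕ => P.eval (t : ℤ) ≠ 0) R
  have h5 : ∑ t ∈ RG G δ X, R t ≤ (C1 + (∑ t ∈ Z, R t) * cm⁻¹) * bd G e X := by
    rw [← h4, add_mul]
    exact add_le_add h6 (h2.trans h3)
  calc _ = ∑ t ∈ RG G δ X, R t := by rw [hR]
    _ ≤ _ := h5

/-- **the moments at the rough parameters**, the twisting polynomial has even order at the zeros
of `A B (A - B)` -/
theorem fam_P (hQ : QL Q) {A B D G : ℤ[X]} (hD : D ≠ 0)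
    (hG : Squarefree (q G))
    (hS : Squarefree ((A * B * (A - B)).map (Int.castRingHom ℚ)))
    (hev : ∀ P : ℚ[X], Irreducible P → P ∣ (A * B * (A - B)).map (Int.castRingHom ℚ) →
      Even (multiplicity P (D.map (Int.castRingHom ℚ))))
    {r : ℕ} {e : ℝ} (hE : ExG A B G r e) {δ : ℝ} (hδ : 0 < δ) :
    ∃ C : ℝ, 0 ≤ C ∧ ∀ X : ℕ, 1 ≤ X → ∑ t ∈ RG G δ X,
        Q (A.eval (t : ℤ) * D.eval (t : ℤ)) (B.eval (t : ℤ) * D.eval (t : ℤ)) ^ r ≤
        C * bd G e X := by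
  obtain ⟨c, g, f, hc, hg, hf, hs, heq⟩ := sep_sq _ D rfl hD
  refine half_DP hQ hc hg heq ?_ (sep_of_sqf hG) hE hδ
  apply sep_of_sqf
  unfold ft
  rw [Polynomial.map_mul, squarefree_mul_iff]
  refine ⟨?_, hS, sqf_of_sep hs⟩
  have hsf := sqf_of_sep hs
  refine WfDvdMonoid.isRelPrime_of_no_irreducible_factors (fun h => map_ne hf h.2) ?_
  intro P hP hPA hPf
  have hev' := hev P hP hPA
  have hPp : Prime P := hP.prime
  have hm : C ((c : ℚ) ^ 2) * D.map (Int.castRingHom ℚ) =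
      (g.map (Int.castRingHom ℚ)) ^ 2 * f.map (Int.castRingHom ℚ) := by
    have := congrArg (Polynomial.map (Int.castRingHom ℚ)) heq
    simpa only [Polynomial.map_mul, Polynomial.map_C, Polynomial.map_pow, Int.coe_castRingHom,
      Int.cast_pow] using this
  have hcq : ((c : ℚ) ^ 2) ≠ 0 := by
    have : (c : ℚ) ≠ 0 := by exact_mod_cast hc
    positivity
  have hfin : ∀ x : ℚ[X], x ≠ 0 → FiniteMultiplicity P x := fun x hx =>
    FiniteMultiplicity.of_prime_left hPp hx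
  have hu : multiplicity P (C ((c : ℚ) ^ 2)) = 0 := by
    apply multiplicity_eq_zero.2
    intro h
    exact hP.not_isUnit (isUnit_of_dvd_unit h (isUnit_C.2 (isUnit_iff_ne_zero.2 hcq)))
  have h3 := congrArg (multiplicity P) hm
  rw [multiplicity_mul hPp (hfin _ (mul_ne_zero (C_ne_zero.2 hcq) (map_ne hD))), hu, zero_add,
    multiplicity_mul hPp (hfin _ (mul_ne_zero (pow_ne_zero 2 (map_ne hg)) (map_ne hf))),
    FiniteMultiplicity.multiplicity_pow hPp (hfin _ (map_ne hg))] at h3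
  have h4 : multiplicity P (f.map (Int.castRingHom ℚ)) = 1 := by
    refine multiplicity_eq_of_dvd_of_not_dvd (by rwa [pow_one]) ?_
    intro h
    rw [sq] at h
    exact hP.not_isUnit (hsf P h)
  rw [h4] at h3
  rw [h3] at hev'
  obtain ⟨k, hk⟩ := hev'
  omega

end Pool.Agent.U376.GR
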