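import Mathlib
import Pool.Agent.U376.GR.Asm

/-!
# The moments over the prime parameters
-/

set_option autoImplicit false

namespace Pool.Agent.U376.GR

open Finset Polynomial Pool.Agent.U214.PT Pool.Agent.U214.GT

lemma sqf_X : Squarefree (q X) := by
  have : q X = X := Polynomial.map_X _
  rw [this]
  exact irreducible_X.squarefree

lemma sqf_one : Squarefree (q 1) := by
  have : q 1 = 1 := Polynomial.map_one _
  rw [this]
  exact squarefree_one

lemma nf_X : nf (X : ℤ[X]) = 1 := nf_irr irreducible_X (by simp)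

lemma nf_one : nf (1 : ℤ[X]) = 0 := by
  have : (1 : ℤ[X]) = C 1 := by simp
  rw [this]
  exact nf_const one_ne_zero

/-- Chebyshev's lower bound -/
lemma pi_low : ∃ c : ℝ, 0 < c ∧ ∀ N : ℕ, 2 ≤ N →
    N / (1 + Real.log N) ≤ c * Nat.primeCounting N := by
  refine ⟨6, by norm_num, fun N hN => ?_⟩
  have hNr : (2 : ℝ) ≤ N := by exact_mod_cast hN
  have hl : 0 < Real.log N := Real.log_pos (by linarith)
  have h1 : (N : ℝ) * Real.log 2 - Real.log (N + 1) ≤ Nat.primeCounting N * Real.log N :=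
    (Chebyshev.psi_ge N).trans (Chebyshev.psi_le_primeCounting_mul_log N)
  have h2 := Real.log_two_gt_d9
  have hpi : (1 : ℝ) ≤ Nat.primeCounting N := by
    have : Nat.primeCounting 2 ≤ Nat.primeCounting N := Nat.monotone_primeCounting hN
    have h3 : Nat.primeCounting 2 = 1 := by decide
    rw [h3] at this
    exact_mod_cast this
  rw [div_le_iff₀ (by linarith)]
  -- `log (N + 1) ≤ log N + 1`
  have h4 : Real.log (N + 1) ≤ Real.log N + Real.log 2 := by
    rw [← Real.log_mul (by positivity) (by norm_num)]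
    apply Real.log_le_log (by positivity)
    linarith
  have h5 : Real.log 2 < 1 := by have := Real.log_two_lt_d9; linarith
  have h6 : (Nat.primeCounting N : ℝ) * Real.log N ≤ Nat.primeCounting N * (1 + Real.log N) :=
    mul_le_mul_of_nonneg_left (by linarith) (by positivity)
  have h7 : Real.log N + 1 ≤ Nat.primeCounting N * (1 + Real.log N) := by nlinarith
  nlinarith

/-- **the moments over the primes** -/
theorem prime_P {Q : ℤ → ℤ → ℝ} (hQ : QL Q) {A B D : ℤ[X]} (hD : D ≠ 0)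
    (hS : Squarefree ((A * B * (A - B)).map (Int.castRingHom ℚ)))
    (hev : ∀ P : ℚ[X], Irreducible P → P ∣ (A * B * (A - B)).map (Int.castRingHom ℚ) →
      Even (multiplicity P (D.map (Int.castRingHom ℚ))))
    {r : ℕ} {e : ℝ} (hE : ExG A B X r e) :
    ∃ C : ℝ, 0 ≤ C ∧ ∀ N : ℕ, 2 ≤ N → ∑ p ∈ (Icc 1 N).filter Nat.Prime,
        Q (A.eval (p : ℤ) * D.eval (p : ℤ)) (B.eval (p : ℤ) * D.eval (p : ℤ)) ^ r ≤
        C * (Nat.primeCounting N * (1 + Real.log N) ^ e) := by
  classical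
  obtain ⟨C1, hC10, hC1⟩ := fam_P hQ hD sqf_X hS hev hE (δ := 1 / 2) (by norm_num)
  obtain ⟨n1, hn1⟩ : ∃ n1 : ℕ, n1 = 2 ^ r * (nG 1 A + nG 1 B + nG 1 (A - B)) := ⟨_, rfl⟩
  have hE1 : ExG A B 1 r (n1 : ℝ) := by
    have h2 : (1 : ℝ) ≤ 2 ^ r := one_le_pow₀ (by norm_num)
    have key : ∀ a b c : ℕ, a + b + c = nG 1 A + nG 1 B + nG 1 (A - B) →
        ((2 : ℝ) ^ r - 1) * (a - ((b : ℝ) + c) / 2 ^ r) ≤ n1 := by
      intro a b c h
      have e1 : (n1 : ℝ) = 2 ^ r * ((a : ℝ) + b + c) := by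
        rw [hn1, ← h]
        push_cast
        rfl
      have ha : (0 : ℝ) ≤ a := Nat.cast_nonneg a
      have hb : (0 : ℝ) ≤ b := Nat.cast_nonneg b
      have hc : (0 : ℝ) ≤ c := Nat.cast_nonneg c
      have hbc : 0 ≤ ((b : ℝ) + c) / 2 ^ r := by positivity
      rw [e1]
      calc ((2 : ℝ) ^ r - 1) * (a - ((b : ℝ) + c) / 2 ^ r) ≤ ((2 : ℝ) ^ r - 1) * a :=
            mul_le_mul_of_nonneg_left (by linarith) (by linarith)
        _ ≤ 2 ^ r * a := mul_le_mul_of_nonneg_right (by linarith) ha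
        _ ≤ _ := mul_le_mul_of_nonneg_left (by linarith) (by positivity)
    exact ⟨Nat.cast_nonneg _, key _ _ _ rfl, key _ _ _ (by ring), key _ _ _ (by ring)⟩
  obtain ⟨C2, hC20, hC2⟩ := fam_P hQ hD sqf_one hS hev hE1 (δ := 1) one_pos
  obtain ⟨c3, hc31, hc3⟩ := log_pow_le (2 * (n1 + 1))
  obtain ⟨c, hc, hpi⟩ := pi_low
  obtain ⟨R, hR⟩ : ∃ R : ℕ → ℝ, R = fun t : ℕ =>
      Q (A.eval (t : ℤ) * D.eval (t : ℤ)) (B.eval (t : ℤ) * D.eval (t : ℤ)) ^ r := ⟨_, rfl⟩
  have hR0 : ∀ t, 0 ≤ R t := fun t => by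
    rw [hR]
    exact pow_nonneg (hQ.nn _ _) _
  refine ⟨(C1 + C2 * Real.sqrt c3) * c, by positivity, fun N hN => ?_⟩
  have hNr : (2 : ℝ) ≤ N := by exact_mod_cast hN
  have hl : 0 ≤ Real.log N := Real.log_natCast_nonneg N
  obtain ⟨M, hM⟩ : ∃ M, M = Nat.sqrt N := ⟨_, rfl⟩
  have hM1 : 1 ≤ M := by
    rw [hM, Nat.one_le_iff_ne_zero, Ne, Nat.sqrt_eq_zero]
    omega
  have hMN : M * M ≤ N := by rw [hM]; exact Nat.sqrt_le N
  have hNM : N < (M + 1) * (M + 1) := by rw [hM]; exact Nat.lt_succ_sqrt N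
  have hMr : (M : ℝ) ≤ Real.sqrt N := by
    apply Real.le_sqrt_of_sq_le
    rw [sq]
    exact_mod_cast hMN
  have hsub : (Icc 1 N).filter Nat.Prime ⊆ RG X (1 / 2) N ∪ RG 1 1 M := by
    intro p hp
    rw [mem_filter, mem_Icc] at hp
    rw [mem_union]
    rcases Nat.lt_or_ge M p with h | h
    · left
      unfold RG
      rw [mem_filter, mem_Icc]
      refine ⟨hp.1, fun l hl hlN hlp => ?_⟩
      rw [eval_X] at hlp
      have h1 : l ∣ p := by exact_mod_cast hlp
      have h2 : l = p := (Nat.prime_dvd_prime_iff_eq hl hp.2).1 h1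
      rw [h2, ← Real.sqrt_eq_rpow] at hlN
      have h3 : (p : ℝ) ^ 2 ≤ N := by
        have := pow_le_pow_left₀ (Nat.cast_nonneg p) hlN 2
        rwa [Real.sq_sqrt (by linarith)] at this
      have h4 : p ^ 2 ≤ N := by exact_mod_cast h3
      have h5 : (M + 1) * (M + 1) ≤ p ^ 2 := by
        rw [sq]
        exact Nat.mul_le_mul (by omega) (by omega)
      omega
    · right
      unfold RG
      rw [mem_filter, mem_Icc]
      refine ⟨⟨hp.1.1, h⟩, fun l hl _ hlp => ?_⟩
      rw [eval_one] at hlp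
      have h1 : l ∣ 1 := by exact_mod_cast hlp
      exact hl.one_lt.ne' (Nat.dvd_one.1 h1)
  have h1 : ∑ p ∈ (Icc 1 N).filter Nat.Prime, R p ≤
      ∑ p ∈ RG X (1 / 2) N, R p + ∑ p ∈ RG 1 1 M, R p := by
    refine (sum_le_sum_of_subset_of_nonneg hsub (fun t _ _ => hR0 t)).trans ?_
    rw [← sum_union_inter]
    exact le_add_of_nonneg_right (sum_nonneg fun t _ => hR0 t)
  have h2 : ∑ p ∈ RG X (1 / 2) N, R p ≤ C1 * bd X e N := by
    have := hC1 N (by omega)
    rw [hR]
    exact this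
  have h3 : ∑ p ∈ RG 1 1 M, R p ≤ C2 * bd 1 (n1 : ℝ) M := by
    have := hC2 M hM1
    rw [hR]
    exact this
  have hL1 : (1 : ℝ) ≤ (1 + Real.log N) ^ e := Real.one_le_rpow (by linarith) hE.nn
  have e1 : bd X e N = N / (1 + Real.log N) * (1 + Real.log N) ^ e := by
    unfold bd
    rw [nf_X, pow_one]
  have hNL : 0 ≤ N / (1 + Real.log N) := div_nonneg (by linarith) (by linarith)
  have e2 : bd 1 (n1 : ℝ) M ≤ Real.sqrt c3 * (N / (1 + Real.log N)) := by
    unfold bd
    rw [nf_one, pow_zero, div_one, Real.rpow_natCast]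
    have hML : Real.log M ≤ Real.log N := by
      apply Real.log_le_log (by exact_mod_cast hM1)
      have : M ≤ N := le_trans (Nat.le_mul_self M) hMN
      exact_mod_cast this
    have hlM : 0 ≤ Real.log M := Real.log_natCast_nonneg M
    have h4 : (1 + Real.log N) ^ (n1 + 1) ≤ Real.sqrt c3 * Real.sqrt N := by
      rw [← Real.sqrt_mul (by linarith)]
      apply Real.le_sqrt_of_sq_le
      rw [← pow_mul, mul_comm (n1 + 1) 2]
      exact hc3 N (by omega)
    rw [← mul_div_assoc, le_div_iff₀ (by linarith)]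
    calc (M : ℝ) * (1 + Real.log M) ^ n1 * (1 + Real.log N)
        ≤ Real.sqrt N * (1 + Real.log N) ^ n1 * (1 + Real.log N) := by
          apply mul_le_mul_of_nonneg_right _ (by linarith)
          exact mul_le_mul hMr (pow_le_pow_left₀ (by linarith) (by linarith) _) (by positivity)
            (Real.sqrt_nonneg _)
      _ = Real.sqrt N * (1 + Real.log N) ^ (n1 + 1) := by rw [pow_succ]; ring
      _ ≤ Real.sqrt N * (Real.sqrt c3 * Real.sqrt N) :=
          mul_le_mul_of_nonneg_left h4 (Real.sqrt_nonneg _)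
      _ = Real.sqrt c3 * N := by
          rw [mul_comm (Real.sqrt c3), ← mul_assoc, Real.mul_self_sqrt (by linarith), mul_comm]
  have h5 : ∑ p ∈ (Icc 1 N).filter Nat.Prime, R p ≤
      (C1 + C2 * Real.sqrt c3) * (N / (1 + Real.log N) * (1 + Real.log N) ^ e) := by
    rw [add_mul]
    refine h1.trans (add_le_add (by rw [← e1]; exact h2) (h3.trans ?_))
    rw [mul_assoc]
    refine mul_le_mul_of_nonneg_left (e2.trans ?_) hC20
    exact mul_le_mul_of_nonneg_left (le_mul_of_one_le_right hNL hL1) (Real.sqrt_nonneg _)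
  have h6 : N / (1 + Real.log N) * (1 + Real.log N) ^ e ≤
      c * Nat.primeCounting N * (1 + Real.log N) ^ e :=
    mul_le_mul_of_nonneg_right (hpi N hN) (by linarith)
  calc ∑ p ∈ (Icc 1 N).filter Nat.Prime,
        Q (A.eval (p : ℤ) * D.eval (p : ℤ)) (B.eval (p : ℤ) * D.eval (p : ℤ)) ^ r
      = ∑ p ∈ (Icc 1 N).filter Nat.Prime, R p := by rw [hR]
    _ ≤ (C1 + C2 * Real.sqrt c3) * (c * Nat.primeCounting N * (1 + Real.log N) ^ e) :=
        h5.trans (mul_le_mul_of_nonneg_left h6 (by positivity))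
    _ = _ := by ring

end Pool.Agent.U376.GR
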