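import Mathlib
import Pool.Agent.TH841.SH.ShaDef
import Pool.Agent.U409.SH.Tor
import Pool.Agent.U214.PT.ShaQ
import Pool.Agent.U214.PT.Tor
import Pool.Agent.U376.GR.Prime

/-!
# The powers of two in the Tate-Shafarevich groups over the prime and the sifted parameters
-/

set_option autoImplicit false

namespace Pool.Agent.U376.GR

open Finset Polynomial Pool.Agent.U214.PT Pool.Agent.U214.GT
open Pool.Agent.TH841.SH.D (ShaTor Sha rk HasDiv Pruf)

/-- the class of `1 / 2` in `ℚ₂ / ℤ₂` -/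
noncomputable def hlf : Pruf := QuotientAddGroup.mk ((2 : ℚ_[2])⁻¹)

lemma hlf_ne : hlf ≠ 0 := by
  intro h
  have h1 := (QuotientAddGroup.eq_zero_iff ((2 : ℚ_[2])⁻¹)).1 h
  have h2 : ‖(2 : ℚ_[2])⁻¹‖ ≤ 1 := h1
  rw [norm_inv] at h2
  have h3 : ‖(2 : ℚ_[2])‖ = 2⁻¹ := by
    have := Padic.norm_p (p := 2)
    exact_mod_cast this
  rw [h3, inv_inv] at h2
  norm_num at h2

lemma two_hlf : 2 • hlf = 0 := by
  have h : 2 • hlf = (QuotientAddGroup.mk (2 • (2 : ℚ_[2])⁻¹) : Pruf) := rfl
  rw [h, QuotientAddGroup.eq_zero_iff]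
  have h2 : (2 : ℕ) • (2 : ℚ_[2])⁻¹ = 1 := by
    rw [nsmul_eq_mul]
    norm_num
  rw [h2]
  exact (PadicInt.subring 2).one_mem

/-- divisible subgroups have elements of order two -/
lemma div_card {W : WeierstrassCurve ℚ} {δ : ℕ} (h : HasDiv W δ) (hfin : Finite (ShaTor W 2)) :
    2 ^ δ ≤ Nat.card (ShaTor W 2) := by
  classical
  obtain ⟨f, hf⟩ := h
  let g : (Fin δ → Bool) → ShaTor W 2 := fun x =>
    ⟨f (fun i => if x i = true then hlf else 0), by
      rw [← map_nsmul]
      have h1 : (2 • fun i => if x i = true then hlf else 0 : Fin δ → Pruf) = 0 := by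
        funext i
        show 2 • (if x i = true then hlf else 0) = 0
        split_ifs
        · exact two_hlf
        · exact smul_zero _
      rw [h1, map_zero]⟩
  have hg : Function.Injective g := by
    intro x y hxy
    have h1 : f (fun i => if x i = true then hlf else 0) =
        f (fun i => if y i = true then hlf else 0) := congrArg Subtype.val hxy
    have h2 := hf h1
    funext i
    have h3 : (if x i = true then hlf else 0) = (if y i = true then hlf else 0) := congrFun h2 i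
    by_cases hx : x i = true <;> by_cases hy : y i = true
    · rw [hx, hy]
    · rw [if_pos hx, if_neg hy] at h3
      exact absurd h3 hlf_ne
    · rw [if_neg hx, if_pos hy] at h3
      exact absurd h3.symm hlf_ne
    · rw [Bool.not_eq_true] at hx hy
      rw [hx, hy]
  have h1 := Nat.card_le_card_of_injective g hg
  have h2 : Nat.card (Fin δ → Bool) = 2 ^ δ := by
    rw [Nat.card_fun, Nat.card_eq_fintype_card, Nat.card_eq_fintype_card]
    simp
  rwa [h2] at h1

/-- `2 ^ (k rank) * #Ш[2 ^ k]` -/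
noncomputable def Mk (k : ℕ) (W : WeierstrassCurve ℚ) : ℕ :=
  2 ^ (k * rk W) * Nat.card (ShaTor W (2 ^ k))

lemma Mk_le (k : ℕ) (W : WeierstrassCurve ℚ) (h : Finite (ShaTor W 2)) :
    Finite (ShaTor W (2 ^ k)) ∧ Mk k W ≤ (Mk 1 W) ^ k := by
  obtain ⟨h1, h2⟩ := tor_pow (G := Sha W) h k
  refine ⟨h1, ?_⟩
  unfold Mk
  rw [one_mul, pow_one, mul_pow, ← pow_mul, mul_comm (rk W) k]
  exact Nat.mul_le_mul_left _ h2

end Pool.Agent.U376.GR
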